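import Mathlib
import Pool.Agent.helper7.OC.Defs
import Pool.Agent.helper12.PE.Fin

/-!
Project OC, module AA0: the Hecke operators on the polynomials in `Δ` modulo 2.
-/

set_option autoImplicit false
open Finset UpperHalfPlane ModularForm PowerSeries
open scoped MatrixGroups
open Pool.Agent.helper81 (EE)
open Pool.Agent.helper12.PE (DD pow_eq_expand exists_form exists_hecke integral_form_mod_two disc
  map_disc_pow constantCoeff_pentagonalSeries)

namespace Pool.Agent.helper7.OC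

/-- `Δ ^ j = X ^ j (E ^ (3 j)) (X ^ 8)`. -/
lemma DD_pow_eq (j : ℕ) :
    DD ^ j = X ^ j * PowerSeries.expand 8 (by norm_num) (EE ^ (3 * j)) := by
  unfold DD
  rw [mul_pow]
  congr 1
  have h := pow_eq_expand (EE ^ (3 * j)) 3
  rw [← pow_mul, show 24 * j = 3 * j * 2 ^ 3 by ring, pow_mul, h]
  rfl

theorem coeff_DD_pow_lt (i j : ℕ) (h : i < j) : coeff i (DD ^ j) = 0 := by
  rw [DD_pow_eq, coeff_X_pow_mul', if_neg (by omega)]

lemma constantCoeff_EE_pow (n : ℕ) : constantCoeff (EE ^ n) = 1 := by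
  rw [map_pow]
  have : constantCoeff EE = 1 := constantCoeff_pentagonalSeries (ZMod 2)
  rw [this, one_pow]

theorem coeff_DD_pow_self (j : ℕ) : coeff j (DD ^ j) = 1 := by
  rw [DD_pow_eq, coeff_X_pow_mul', if_pos le_rfl, Nat.sub_self, coeff_zero_eq_constantCoeff]
  have h := constantCoeff_EE_pow (3 * j)
  rw [← coeff_zero_eq_constantCoeff] at h ⊢
  have h2 := coeff_expand_mul (R := ZMod 2) 8 (by norm_num) (EE ^ (3 * j)) 0
  rw [mul_zero] at h2
  rw [h2, h]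

theorem coeff_DD_pow_mod (n j : ℕ) (h : coeff n (DD ^ j) ≠ 0) : n % 8 = j % 8 := by
  by_cases hn : j ≤ n
  · rw [DD_pow_eq, coeff_X_pow_mul', if_pos hn, coeff_expand] at h
    by_cases h8 : 8 ∣ n - j
    · omega
    · rw [if_neg h8] at h
      exact absurd rfl h
  · exact absurd (coeff_DD_pow_lt n j (by omega)) h

theorem linearIndependent_DD : LinearIndependent (ZMod 2) (fun j : ℕ => DD ^ j) := by
  rw [linearIndependent_iff']
  intro s g hs
  have hdec : DecidableEq (ZMod 2) := inferInstance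
  by_contra hcon
  push Not at hcon
  have hne : (s.filter fun i => g i ≠ 0).Nonempty := by
    obtain ⟨i, hi, hg⟩ := hcon
    exact ⟨i, mem_filter.mpr ⟨hi, hg⟩⟩
  set m := (s.filter fun i => g i ≠ 0).min' hne with hm
  have hmem := Finset.min'_mem _ hne
  rw [← hm, mem_filter] at hmem
  have h0 := congrArg (coeff m) hs
  rw [map_sum, map_zero] at h0
  rw [Finset.sum_eq_single m] at h0
  · rw [coeff_smul, coeff_DD_pow_self, smul_eq_mul, mul_one] at h0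
    exact hmem.2 h0
  · intro i hi hne'
    by_cases hg : g i = 0
    · rw [hg, zero_smul, map_zero]
    · have hle := Finset.min'_le (s.filter fun i => g i ≠ 0) i (mem_filter.mpr ⟨hi, hg⟩)
      rw [← hm] at hle
      rw [coeff_smul, coeff_DD_pow_lt m i (lt_of_le_of_ne hle (Ne.symm hne')), smul_zero]
  · intro hn
    exact absurd hmem.1 hn

lemma TT_mem_span (ℓ j : ℕ) (hℓ : ℓ.Prime) (h2 : ℓ ≠ 2) :
    TT ℓ (DD ^ j) ∈ Submodule.span (ZMod 2) (Set.range fun i : Fin (j + 1) => DD ^ (i : ℕ)) := by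
  obtain ⟨F, hF⟩ := exists_form j
  obtain ⟨G, hG⟩ := exists_hecke (12 * j) ℓ hℓ F
  set φ : ℤ⟦X⟧ := .mk fun n => ℓ * coeff (ℓ * n) (disc j) +
    (if ℓ ∣ n then (ℓ : ℤ) ^ (12 * j) * coeff (n / ℓ) (disc j) else 0) with hφ
  have hGφ : qExpansion 1 G = PowerSeries.map (Int.castRingHom ℂ) φ := by
    ext n
    rw [hG, hF, coeff_map, coeff_map, coeff_map, hφ, coeff_mk]
    split_ifs with h <;> simp
  have hmem := integral_form_mod_two j G φ hGφ
  have hodd : ((ℓ : ℤ) : ZMod 2) = 1 := by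
    rw [Int.cast_natCast, ZMod.natCast_eq_one_iff_odd]
    exact hℓ.odd_of_ne_two h2
  have heq : TT ℓ (DD ^ j) = PowerSeries.map (Int.castRingHom (ZMod 2)) φ := by
    ext n
    rw [coeff_TT, ← map_disc_pow, coeff_map, coeff_map, coeff_map, hφ, coeff_mk]
    split_ifs with h
    · simp only [eq_intCast, Int.cast_add, Int.cast_mul, Int.cast_pow, hodd, one_mul, one_pow]
    · simp only [eq_intCast, Int.cast_add, Int.cast_mul, hodd, one_mul, Int.cast_zero]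
  rw [heq]
  exact hmem

lemma TT_support (ℓ j n : ℕ) (hℓ : ℓ.Prime) (h2 : ℓ ≠ 2) (h : coeff n (TT ℓ (DD ^ j)) ≠ 0) :
    n % 8 = ℓ * j % 8 := by
  have hodd : ℓ % 2 = 1 := Nat.odd_iff.mp (hℓ.odd_of_ne_two h2)
  have hsq : ℓ * ℓ % 8 = 1 := by
    have : ℓ % 8 = 1 ∨ ℓ % 8 = 3 ∨ ℓ % 8 = 5 ∨ ℓ % 8 = 7 := by omega
    rcases this with h | h | h | h <;> rw [Nat.mul_mod, h]
  rw [coeff_TT] at h
  by_cases h1 : coeff (ℓ * n) (DD ^ j) = 0
  · rw [h1, zero_add] at h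
    by_cases hd : ℓ ∣ n
    · rw [if_pos hd] at h
      have h3 := coeff_DD_pow_mod _ _ h
      obtain ⟨c, rfl⟩ := hd
      rw [Nat.mul_div_cancel_left _ hℓ.pos] at h3
      rw [Nat.mul_mod, h3, ← Nat.mul_mod]
    · rw [if_neg hd] at h
      exact absurd rfl h
  · have h3 := coeff_DD_pow_mod _ _ h1
    have h4 : ℓ * (ℓ * n) % 8 = n % 8 := by
      rw [← mul_assoc, Nat.mul_mod, hsq]
      omega
    rw [← h4, Nat.mul_mod, h3, ← Nat.mul_mod]

/-- Hecke operators preserve polynomials in `Δ` modulo 2 (with the congruence of the exponents). -/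
theorem TT_mem (ℓ j : ℕ) (hℓ : ℓ.Prime) (h2 : ℓ ≠ 2) :
    TT ℓ (DD ^ j) ∈ Submodule.span (ZMod 2) {f | ∃ i, i ≤ j ∧ i % 8 = ℓ * j % 8 ∧ f = DD ^ i} := by
  classical
  have hmem := TT_mem_span ℓ j hℓ h2
  rw [Submodule.mem_span_range_iff_exists_fun] at hmem
  obtain ⟨c, hc⟩ := hmem
  set A : (ZMod 2)⟦X⟧ := ∑ i ∈ (univ : Finset (Fin (j + 1))).filter
    (fun i : Fin (j + 1) => (i : ℕ) % 8 = ℓ * j % 8), c i • DD ^ (i : ℕ) with hA
  set B : (ZMod 2)⟦X⟧ := ∑ i ∈ (univ : Finset (Fin (j + 1))).filter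
    (fun i : Fin (j + 1) => ¬ (i : ℕ) % 8 = ℓ * j % 8), c i • DD ^ (i : ℕ) with hB
  have hAB : TT ℓ (DD ^ j) = A + B := by
    rw [← hc, hA, hB, Finset.sum_filter_add_sum_filter_not]
  have hB0 : B = 0 := by
    ext n
    rw [map_zero]
    by_cases hn : n % 8 = ℓ * j % 8
    · rw [hB, map_sum]
      refine Finset.sum_eq_zero fun i hi => ?_
      rw [mem_filter] at hi
      rw [coeff_smul]
      by_contra hne
      have h3 : coeff n (DD ^ (i : ℕ)) ≠ 0 := fun h0 => hne (by rw [h0, smul_zero])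
      exact hi.2 ((coeff_DD_pow_mod _ _ h3).symm.trans hn)
    · have h1 : coeff n (TT ℓ (DD ^ j)) = 0 := by
        by_contra hne
        exact hn (TT_support ℓ j n hℓ h2 hne)
      have h3 : coeff n A = 0 := by
        rw [hA, map_sum]
        refine Finset.sum_eq_zero fun i hi => ?_
        rw [mem_filter] at hi
        rw [coeff_smul]
        by_contra hne
        have h3 : coeff n (DD ^ (i : ℕ)) ≠ 0 := fun h0 => hne (by rw [h0, smul_zero])
        exact hn ((coeff_DD_pow_mod _ _ h3).trans hi.2)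
      rw [hAB, map_add, h3, zero_add] at h1
      exact h1
  rw [hAB, hB0, add_zero, hA]
  refine Submodule.sum_mem _ fun i hi => ?_
  rw [mem_filter] at hi
  exact Submodule.smul_mem _ _ (Submodule.subset_span ⟨i, Nat.lt_succ_iff.mp i.isLt, hi.2, rfl⟩)

theorem TT_comm (ℓ ℓ' : ℕ) (hℓ : ℓ.Prime) (hℓ' : ℓ'.Prime) (f : (ZMod 2)⟦X⟧) :
    TT ℓ (TT ℓ' f) = TT ℓ' (TT ℓ f) := by
  by_cases hne : ℓ = ℓ'
  · rw [hne]
  have hco : Nat.Coprime ℓ ℓ' := (Nat.coprime_primes hℓ hℓ').mpr hne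
  ext n
  simp only [coeff_TT]
  have e1 : (ℓ' ∣ ℓ * n) ↔ ℓ' ∣ n := ⟨fun h => hco.symm.dvd_of_dvd_mul_left h, fun h => h.mul_left _⟩
  have e2 : (ℓ ∣ ℓ' * n) ↔ ℓ ∣ n := ⟨fun h => hco.dvd_of_dvd_mul_left h, fun h => h.mul_left _⟩
  simp only [e1, e2]
  by_cases h1 : ℓ ∣ n
  · obtain ⟨a, rfl⟩ := h1
    have e3 : (ℓ' ∣ ℓ * a) ↔ ℓ' ∣ a :=
      ⟨fun h => hco.symm.dvd_of_dvd_mul_left h, fun h => h.mul_left _⟩
    by_cases h2 : ℓ' ∣ a
    · obtain ⟨b, rfl⟩ := h2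
      have hp := hℓ.pos
      have hp' := hℓ'.pos
      rw [if_pos (dvd_mul_right _ _), if_pos (dvd_mul_right _ _), if_pos (e3.mpr (dvd_mul_right _ _)),
        if_pos (e3.mpr (dvd_mul_right _ _))]
      have f1 : ℓ * (ℓ' * b) / ℓ = ℓ' * b := Nat.mul_div_cancel_left _ hp
      have f2 : ℓ * (ℓ' * b) / ℓ' = ℓ * b := by
        rw [show ℓ * (ℓ' * b) = ℓ' * (ℓ * b) by ring, Nat.mul_div_cancel_left _ hp']
      have f3 : ℓ * (ℓ * (ℓ' * b)) / ℓ' = ℓ * (ℓ * b) := by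
        rw [show ℓ * (ℓ * (ℓ' * b)) = ℓ' * (ℓ * (ℓ * b)) by ring, Nat.mul_div_cancel_left _ hp']
      have f4 : ℓ' * (ℓ * (ℓ' * b)) / ℓ = ℓ' * (ℓ' * b) := by
        rw [show ℓ' * (ℓ * (ℓ' * b)) = ℓ * (ℓ' * (ℓ' * b)) by ring, Nat.mul_div_cancel_left _ hp]
      rw [f1, f2, f3, f4, if_pos (dvd_mul_right _ _), if_pos (dvd_mul_right _ _),
        Nat.mul_div_cancel_left _ hp, Nat.mul_div_cancel_left _ hp',
        show ℓ' * (ℓ * (ℓ * (ℓ' * b))) = ℓ * (ℓ' * (ℓ * (ℓ' * b))) by ring]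
      ring
    · have hp := hℓ.pos
      have f4 : ℓ' * (ℓ * a) / ℓ = ℓ' * a := by
        rw [show ℓ' * (ℓ * a) = ℓ * (ℓ' * a) by ring, Nat.mul_div_cancel_left _ hp]
      rw [if_neg (fun h => h2 (e3.mp h)), if_neg (fun h => h2 (e3.mp h)), if_pos (dvd_mul_right _ _),
        if_pos (dvd_mul_right _ _), Nat.mul_div_cancel_left _ hp, if_neg h2, f4,
        show ℓ' * (ℓ * (ℓ * a)) = ℓ * (ℓ' * (ℓ * a)) by ring]
      ring
  · rw [if_neg h1, if_neg h1]
    by_cases h2 : ℓ' ∣ n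
    · obtain ⟨b, rfl⟩ := h2
      have hp' := hℓ'.pos
      rw [if_pos (dvd_mul_right _ _), if_pos (dvd_mul_right _ _), Nat.mul_div_cancel_left _ hp']
      have h3 : ¬ ℓ ∣ b := fun h => h1 (h.mul_left _)
      rw [if_neg h3, show ℓ * (ℓ' * b) / ℓ' = ℓ * b by
        rw [show ℓ * (ℓ' * b) = ℓ' * (ℓ * b) by ring, Nat.mul_div_cancel_left _ hp'],
        show ℓ' * (ℓ * (ℓ' * b)) = ℓ * (ℓ' * (ℓ' * b)) by ring]
      ring
    · rw [if_neg h2, if_neg h2, show ℓ' * (ℓ * n) = ℓ * (ℓ' * n) by ring]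

end Pool.Agent.helper7.OC
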