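import Mathlib
import Pool.Agent.helper38.PO.Rec
import Pool.Agent.helper79.OC.AA0

/-!
Project OC: the values `T_5 (Δ ^ n)`, `n < 32`.
-/

set_option autoImplicit false
open PowerSeries

namespace Pool.Agent.helper7.OC

open Pool.Agent.helper81 (two_eq_zero')
open Pool.Agent.helper12.PE (DD)

lemma TT5_zero : TT 5 (DD ^ 0) = 0 := by
  ext n
  rw [coeff_TT, pow_zero, map_zero, coeff_one, coeff_one]
  by_cases h : n = 0
  · subst h; simp; decide
  · by_cases h5 : 5 ∣ n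
    · rw [if_neg (by omega), if_pos h5, if_neg (by omega), add_zero]
    · rw [if_neg (by omega), if_neg h5, add_zero]

lemma TT5_one : TT 5 (DD ^ 1) = 0 := by
  have h := TT_mem 5 1 (by norm_num) (by norm_num)
  have h2 : {f : (ZMod 2)⟦X⟧ | ∃ i, i ≤ 1 ∧ i % 8 = 5 * 1 % 8 ∧ f = DD ^ i} = ∅ := by
    ext f
    simp only [Set.mem_ofPred_eq, Set.mem_empty_iff_false, iff_false]
    rintro ⟨i, hi, hi2, _⟩
    omega
  rwa [h2, Submodule.span_empty, Submodule.mem_bot] at h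

lemma TT5_two : TT 5 (DD ^ 2) = 0 := by
  have h := TT_sq 5 (by norm_num) (DD ^ 1)
  rw [TT5_one, ← pow_mul] at h
  simpa using h

lemma TT5_three : TT 5 (DD ^ 3) = 0 := by
  have h := TT_mem 5 3 (by norm_num) (by norm_num)
  have h2 : {f : (ZMod 2)⟦X⟧ | ∃ i, i ≤ 3 ∧ i % 8 = 5 * 3 % 8 ∧ f = DD ^ i} = ∅ := by
    ext f
    simp only [Set.mem_ofPred_eq, Set.mem_empty_iff_false, iff_false]
    rintro ⟨i, hi, hi2, _⟩
    omega
  rwa [h2, Submodule.span_empty, Submodule.mem_bot] at h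

lemma TT5_four : TT 5 (DD ^ 4) = 0 := by
  have h := TT_sq 5 (by norm_num) (DD ^ 2)
  rw [TT5_two, ← pow_mul] at h
  simpa using h

lemma TT5_five : TT 5 (DD ^ 5) = DD ^ 1 := by
  have h := TT_mem 5 5 (by norm_num) (by norm_num)
  have h2 : {f : (ZMod 2)⟦X⟧ | ∃ i, i ≤ 5 ∧ i % 8 = 5 * 5 % 8 ∧ f = DD ^ i} = {DD ^ 1} := by
    ext f
    simp only [Set.mem_ofPred_eq, Set.mem_singleton_iff]
    constructor
    · rintro ⟨i, hi, hi2, rfl⟩
      rw [show i = 1 by omega]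
    · rintro rfl
      exact ⟨1, by norm_num, by norm_num, rfl⟩
  rw [h2, Submodule.mem_span_singleton] at h
  obtain ⟨a, ha⟩ := h
  have h3 := congrArg (coeff 1) ha
  rw [coeff_TT, coeff_smul, coeff_DD_pow_self, if_neg (by norm_num), mul_one, coeff_DD_pow_self,
    add_zero, smul_eq_mul, mul_one] at h3
  rw [← ha, h3, one_smul]

lemma TT5_6 : TT 5 (DD ^ 6) = 0 := by
  have h := TT_five_rec_six 0
  norm_num only at h
  rw [TT5_zero, TT5_four, TT5_two, TT5_one] at h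
  rw [h]
  ring

lemma TT5_7 : TT 5 (DD ^ 7) = DD ^ 3 := by
  have h := TT_five_rec_six 1
  norm_num only at h
  rw [TT5_one, TT5_five, TT5_three, TT5_two] at h
  rw [h]
  ring

lemma TT5_8 : TT 5 (DD ^ 8) = 0 := by
  have h := TT_five_rec_six 2
  norm_num only at h
  rw [TT5_two, TT5_6, TT5_four, TT5_three] at h
  rw [h]
  ring

lemma TT5_9 : TT 5 (DD ^ 9) = 0 := by
  have h := TT_five_rec_six 3
  norm_num only at h
  rw [TT5_three, TT5_7, TT5_five, TT5_four] at h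
  rw [h]
  linear_combination (1 * DD ^ 5) * two_eq_zero'

lemma TT5_10 : TT 5 (DD ^ 10) = DD ^ 2 := by
  have h := TT_five_rec_six 4
  norm_num only at h
  rw [TT5_four, TT5_8, TT5_6, TT5_five] at h
  rw [h]
  ring

lemma TT5_11 : TT 5 (DD ^ 11) = 0 := by
  have h := TT_five_rec_six 5
  norm_num only at h
  rw [TT5_five, TT5_9, TT5_7, TT5_6] at h
  rw [h]
  linear_combination (1 * DD ^ 7) * two_eq_zero'

lemma TT5_12 : TT 5 (DD ^ 12) = 0 := by
  have h := TT_five_rec_six 6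
  norm_num only at h
  rw [TT5_6, TT5_10, TT5_8, TT5_7] at h
  rw [h]
  linear_combination (1 * DD ^ 4) * two_eq_zero'

lemma TT5_13 : TT 5 (DD ^ 13) = DD ^ 9 := by
  have h := TT_five_rec_six 7
  norm_num only at h
  rw [TT5_7, TT5_11, TT5_9, TT5_8] at h
  rw [h]
  ring

lemma TT5_14 : TT 5 (DD ^ 14) = DD ^ 6 := by
  have h := TT_five_rec_six 8
  norm_num only at h
  rw [TT5_8, TT5_12, TT5_10, TT5_9] at h
  rw [h]
  ring

lemma TT5_15 : TT 5 (DD ^ 15) = DD ^ 3 + DD ^ 11 := by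
  have h := TT_five_rec_six 9
  norm_num only at h
  rw [TT5_9, TT5_13, TT5_11, TT5_10] at h
  rw [h]
  ring

lemma TT5_16 : TT 5 (DD ^ 16) = 0 := by
  have h := TT_five_rec_six 10
  norm_num only at h
  rw [TT5_10, TT5_14, TT5_12, TT5_11] at h
  rw [h]
  linear_combination (1 * DD ^ 8) * two_eq_zero'

lemma TT5_17 : TT 5 (DD ^ 17) = DD ^ 5 := by
  have h := TT_five_rec_six 11
  norm_num only at h
  rw [TT5_11, TT5_15, TT5_13, TT5_12] at h
  rw [h]
  linear_combination (1 * DD ^ 13) * two_eq_zero'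

lemma TT5_18 : TT 5 (DD ^ 18) = 0 := by
  have h := TT_five_rec_six 12
  norm_num only at h
  rw [TT5_12, TT5_16, TT5_14, TT5_13] at h
  rw [h]
  linear_combination (1 * DD ^ 10) * two_eq_zero'

lemma TT5_19 : TT 5 (DD ^ 19) = DD ^ 7 := by
  have h := TT_five_rec_six 13
  norm_num only at h
  rw [TT5_13, TT5_17, TT5_15, TT5_14] at h
  rw [h]
  linear_combination (1 * DD ^ 15 + 1 * DD ^ 7) * two_eq_zero'

lemma TT5_20 : TT 5 (DD ^ 20) = DD ^ 4 := by
  have h := TT_five_rec_six 14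
  norm_num only at h
  rw [TT5_14, TT5_18, TT5_16, TT5_15] at h
  rw [h]
  linear_combination (1 * DD ^ 12) * two_eq_zero'

lemma TT5_21 : TT 5 (DD ^ 21) = DD ^ 9 + DD ^ 17 := by
  have h := TT_five_rec_six 15
  norm_num only at h
  rw [TT5_15, TT5_19, TT5_17, TT5_16] at h
  rw [h]
  linear_combination (1 * DD ^ 9) * two_eq_zero'

lemma TT5_22 : TT 5 (DD ^ 22) = 0 := by
  have h := TT_five_rec_six 16
  norm_num only at h
  rw [TT5_16, TT5_20, TT5_18, TT5_17] at h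
  rw [h]
  linear_combination (1 * DD ^ 6) * two_eq_zero'

lemma TT5_23 : TT 5 (DD ^ 23) = DD ^ 11 + DD ^ 19 := by
  have h := TT_five_rec_six 17
  norm_num only at h
  rw [TT5_17, TT5_21, TT5_19, TT5_18] at h
  rw [h]
  linear_combination (1 * DD ^ 11) * two_eq_zero'

lemma TT5_24 : TT 5 (DD ^ 24) = 0 := by
  have h := TT_five_rec_six 18
  norm_num only at h
  rw [TT5_18, TT5_22, TT5_20, TT5_19] at h
  rw [h]
  linear_combination (1 * DD ^ 8) * two_eq_zero'

lemma TT5_25 : TT 5 (DD ^ 25) = DD ^ 5 + DD ^ 13 := by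
  have h := TT_five_rec_six 19
  norm_num only at h
  rw [TT5_19, TT5_23, TT5_21, TT5_20] at h
  rw [h]
  linear_combination (1 * DD ^ 13 + 1 * DD ^ 21) * two_eq_zero'

lemma TT5_26 : TT 5 (DD ^ 26) = DD ^ 18 := by
  have h := TT_five_rec_six 20
  norm_num only at h
  rw [TT5_20, TT5_24, TT5_22, TT5_21] at h
  rw [h]
  linear_combination (1 * DD ^ 10) * two_eq_zero'

lemma TT5_27 : TT 5 (DD ^ 27) = DD ^ 7 + DD ^ 15 := by
  have h := TT_five_rec_six 21
  norm_num only at h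
  rw [TT5_21, TT5_25, TT5_23, TT5_22] at h
  rw [h]
  linear_combination (1 * DD ^ 15 + 1 * DD ^ 23) * two_eq_zero'

lemma TT5_28 : TT 5 (DD ^ 28) = DD ^ 12 := by
  have h := TT_five_rec_six 22
  norm_num only at h
  rw [TT5_22, TT5_26, TT5_24, TT5_23] at h
  rw [h]
  linear_combination (1 * DD ^ 20) * two_eq_zero'

lemma TT5_29 : TT 5 (DD ^ 29) = DD ^ 17 + DD ^ 25 := by
  have h := TT_five_rec_six 23
  norm_num only at h
  rw [TT5_23, TT5_27, TT5_25, TT5_24] at h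
  rw [h]
  linear_combination (1 * DD ^ 17 + 1 * DD ^ 9) * two_eq_zero'

lemma TT5_30 : TT 5 (DD ^ 30) = DD ^ 6 + DD ^ 22 := by
  have h := TT_five_rec_six 24
  norm_num only at h
  rw [TT5_24, TT5_28, TT5_26, TT5_25] at h
  rw [h]
  linear_combination (1 * DD ^ 14) * two_eq_zero'

lemma TT5_31 : TT 5 (DD ^ 31) = DD ^ 27 := by
  have h := TT_five_rec_six 25
  norm_num only at h
  rw [TT5_25, TT5_29, TT5_27, TT5_26] at h
  rw [h]
  linear_combination (1 * DD ^ 11 + 2 * DD ^ 19) * two_eq_zero'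

end Pool.Agent.helper7.OC
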