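import Mathlib
import Pool.Agent.helper79.OC.Base5
import Pool.Agent.helper38.PO.Dig

/-!
Project OC: the leading term of `T_5 (Δ ^ (2 κ + 1))`.
-/

set_option autoImplicit false
open PowerSeries

namespace Pool.Agent.helper7.OC

open Pool.Agent.helper12.PE (DD)

/-- The span of the `Δ ^ (2 j + 1)` with `j < N` and `(dg j + 1, od j + 1) ≤ (H, B)`
lexicographically. -/
noncomputable def Lo (N H B : ℕ) : Submodule (ZMod 2) (ZMod 2)⟦X⟧ :=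
  Submodule.span (ZMod 2)
    {f | ∃ j : ℕ, j < N ∧ dg j < H ∧ (dg j + 1 = H → od j < B) ∧ f = DD ^ (2 * j + 1)}

lemma Lo_mem {N H B j : ℕ} (h1 : j < N) (h2 : dg j < H) (h3 : dg j + 1 = H → od j < B) :
    DD ^ (2 * j + 1) ∈ Lo N H B := Submodule.subset_span ⟨j, h1, h2, h3, rfl⟩

lemma Lo_shift {N H B N' H' B' : ℕ} (c : ℕ)
    (h : ∀ j, j < N → dg j < H → (dg j + 1 = H → od j < B) →
      j + c < N' ∧ dg (j + c) < H' ∧ (dg (j + c) + 1 = H' → od (j + c) < B'))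
    {g : (ZMod 2)⟦X⟧} (hg : g ∈ Lo N H B) : DD ^ (2 * c) * g ∈ Lo N' H' B' := by
  unfold Lo at hg
  induction hg using Submodule.span_induction with
  | mem x hx =>
    obtain ⟨j, h1, h2, h3, rfl⟩ := hx
    obtain ⟨h4, h5, h6⟩ := h j h1 h2 h3
    rw [← pow_add, show 2 * c + (2 * j + 1) = 2 * (j + c) + 1 by ring]
    exact Lo_mem h4 h5 h6
  | zero => rw [mul_zero]; exact Submodule.zero_mem _
  | add x y _ _ hx hy => rw [mul_add]; exact Submodule.add_mem _ hx hy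
  | smul a x _ hx => rw [mul_smul_comm]; exact Submodule.smul_mem _ _ hx

lemma Lo_mono {N H B N' H' B' : ℕ}
    (h : ∀ j, j < N → dg j < H → (dg j + 1 = H → od j < B) →
      j < N' ∧ dg j < H' ∧ (dg j + 1 = H' → od j < B')) : Lo N H B ≤ Lo N' H' B' := by
  intro g hg
  have := Lo_shift (N := N) (H := H) (B := B) (N' := N') (H' := H') (B' := B') 0
    (by simpa using h) hg
  simpa using this

/-- The form of `T_5 (Δ ^ (2 κ + 1))`. -/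
def D5 (κ : ℕ) : Prop := ∃ f ∈ Lo κ (dg κ) (od κ - 1),
  (od κ = 0 → TT 5 (DD ^ (2 * κ + 1)) = f) ∧
  (1 ≤ od κ → ∃ μ, μ < κ ∧ ev μ = ev κ ∧ od μ + 1 = od κ ∧
    TT 5 (DD ^ (2 * κ + 1)) = DD ^ (2 * μ + 1) + f)

lemma D5.weak {κ : ℕ} (h : D5 κ) : TT 5 (DD ^ (2 * κ + 1)) ∈ Lo κ (dg κ) (od κ) := by
  obtain ⟨f, hf, h0, h1⟩ := h
  have hf' : f ∈ Lo κ (dg κ) (od κ) := Lo_mono (fun j h1 h2 h3 => ⟨h1, h2, by omega⟩) hf
  by_cases ho : od κ = 0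
  · rw [h0 ho]; exact hf'
  · obtain ⟨μ, h2, h3, h4, h5⟩ := h1 (by omega)
    rw [h5]
    refine Submodule.add_mem _ (Lo_mem h2 ?_ ?_) hf'
    · unfold dg; omega
    · intro _; omega

lemma evod16 (n : ℕ) (h : n < 16) : ev n = n % 2 + 2 * (n / 4 % 2) ∧ od n = n / 2 % 2 + 2 * (n / 8 % 2) := by
  have e1 := ev_eq n
  have e2 := ev_eq (n / 4)
  have e3 := od_eq n
  have e4 := od_eq (n / 4)
  have h0 : n / 4 / 4 = 0 := by omega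
  rw [h0, ev_zero] at e2
  rw [h0, od_zero] at e4
  omega

lemma D5_of_zero {κ : ℕ} (h0 : od κ = 0) (h : TT 5 (DD ^ (2 * κ + 1)) = 0) : D5 κ :=
  ⟨0, Submodule.zero_mem _, fun _ => h, fun h1 => by omega⟩

lemma D5_of_one {κ μ : ℕ} (h1 : μ < κ) (h2 : ev μ = ev κ) (h3 : od μ + 1 = od κ)
    (h : TT 5 (DD ^ (2 * κ + 1)) = DD ^ (2 * μ + 1)) : D5 κ :=
  ⟨0, Submodule.zero_mem _, fun h0 => by omega, fun _ => ⟨μ, h1, h2, h3, by rw [h, add_zero]⟩⟩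

lemma D5_of_two {κ μ ν : ℕ} (h1 : μ < κ) (h2 : ev μ = ev κ) (h3 : od μ + 1 = od κ)
    (h4 : ν < κ) (h5 : dg ν < dg κ) (h6 : dg ν + 1 = dg κ → od ν < od κ - 1)
    (h : TT 5 (DD ^ (2 * κ + 1)) = DD ^ (2 * μ + 1) + DD ^ (2 * ν + 1)) : D5 κ :=
  ⟨DD ^ (2 * ν + 1), Lo_mem h4 h5 h6, fun h0 => by omega, fun _ => ⟨μ, h1, h2, h3, h⟩⟩

lemma D5_base (κ : ℕ) (h : κ < 16) : D5 κ := by
  have E := evod16
  interval_cases κ
  · exact D5_of_zero (by simp [E 0]) TT5_one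
  · exact D5_of_zero (by simp [E 1]) TT5_three
  · exact D5_of_one (μ := 0) (by norm_num) (by simp [E 0, E 2]) (by simp [E 0, E 2]) TT5_five
  · exact D5_of_one (μ := 1) (by norm_num) (by simp [E 1, E 3]) (by simp [E 1, E 3]) TT5_7
  · exact D5_of_zero (by simp [E 4]) TT5_9
  · exact D5_of_zero (by simp [E 5]) TT5_11
  · exact D5_of_one (μ := 4) (by norm_num) (by simp [E 4, E 6]) (by simp [E 4, E 6]) TT5_13
  · exact D5_of_two (μ := 5) (ν := 1) (by norm_num) (by simp [E 5, E 7]) (by simp [E 5, E 7])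
      (by norm_num) (by simp [dg, E 1, E 7]) (by simp [dg, E 1, E 7]) (by rw [TT5_15, add_comm])
  · exact D5_of_one (μ := 2) (by norm_num) (by simp [E 2, E 8]) (by simp [E 2, E 8]) TT5_17
  · exact D5_of_one (μ := 3) (by norm_num) (by simp [E 3, E 9]) (by simp [E 3, E 9]) TT5_19
  · exact D5_of_two (μ := 8) (ν := 4) (by norm_num) (by simp [E 8, E 10]) (by simp [E 8, E 10])
      (by norm_num) (by simp [dg, E 4, E 10]) (by simp [dg, E 4, E 10]) (by rw [TT5_21, add_comm])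
  · exact D5_of_two (μ := 9) (ν := 5) (by norm_num) (by simp [E 9, E 11]) (by simp [E 9, E 11])
      (by norm_num) (by simp [dg, E 5, E 11]) (by simp [dg, E 5, E 11]) (by rw [TT5_23, add_comm])
  · exact D5_of_two (μ := 6) (ν := 2) (by norm_num) (by simp [E 6, E 12]) (by simp [E 6, E 12])
      (by norm_num) (by simp [dg, E 2, E 12]) (by simp [dg, E 2, E 12]) (by rw [TT5_25, add_comm])
  · exact D5_of_two (μ := 7) (ν := 3) (by norm_num) (by simp [E 7, E 13]) (by simp [E 7, E 13])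
      (by norm_num) (by simp [dg, E 3, E 13]) (by simp [dg, E 3, E 13]) (by rw [TT5_27, add_comm])
  · exact D5_of_two (μ := 12) (ν := 8) (by norm_num) (by simp [E 12, E 14]) (by simp [E 12, E 14])
      (by norm_num) (by simp [dg, E 8, E 14]) (by simp [dg, E 8, E 14]) (by rw [TT5_29, add_comm])
  · exact D5_of_one (μ := 13) (by norm_num) (by simp [E 13, E 15]) (by simp [E 13, E 15]) TT5_31

/-! Additions of digits, in terms of `4 ^ f` and `2 ^ f`. -/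

lemma dx0 (f j : ℕ) : (ev (j + 4 ^ f) = ev j + 2 ^ f ∧ od (j + 4 ^ f) = od j) ∨
    dg (j + 4 ^ f) ≤ dg j := by
  rcases add_pow_four_cases f j with h | h
  · exact Or.inl ⟨h.1, h.2.1⟩
  · exact Or.inr h.1

lemma dx1 (f j : ℕ) : (ev (j + 4 * 4 ^ f) = ev j + 2 * 2 ^ f ∧ od (j + 4 * 4 ^ f) = od j ∧
      (ev j < 4 * 2 ^ f → ev j < 2 * 2 ^ f)) ∨
    (dg (j + 4 * 4 ^ f) ≤ dg j ∧ 2 * 2 ^ f ≤ ev j) := by
  have hp : 0 < 2 ^ f := by positivity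
  have e4 : (4 : ℕ) ^ (f + 1) = 4 * 4 ^ f := pow_succ' 4 f
  have e2 : (2 : ℕ) ^ (f + 1) = 2 * 2 ^ f := pow_succ' 2 f
  have := add_pow_four_cases (f + 1) j
  rw [e4, e2] at this
  rcases this with ⟨h1, h2, h3⟩ | ⟨h1, h3⟩
  · refine Or.inl ⟨h1, h2, fun h4 => ?_⟩
    by_contra hcon
    have h5 : ev j / (2 * 2 ^ f) = 1 := by
      rw [Nat.div_eq_iff (by omega)]
      omega
    omega
  · refine Or.inr ⟨h1, ?_⟩
    by_contra hcon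
    rw [Nat.div_eq_of_lt (by omega)] at h3
    omega

lemma dx2 (f j : ℕ) : (ev (j + 16 * 4 ^ f) = ev j + 4 * 2 ^ f ∧ od (j + 16 * 4 ^ f) = od j) ∨
    dg (j + 16 * 4 ^ f) ≤ dg j := by
  have e4 : (4 : ℕ) ^ (f + 1 + 1) = 16 * 4 ^ f := by rw [pow_succ, pow_succ]; ring
  have e2 : (2 : ℕ) ^ (f + 1 + 1) = 4 * 2 ^ f := by rw [pow_succ, pow_succ]; ring
  have := dx0 (f + 1 + 1) j
  rwa [e4, e2] at this

lemma dy0 (f j : ℕ) :
    (ev (j + 2 * 4 ^ f) = ev j ∧ od (j + 2 * 4 ^ f) = od j + 2 ^ f) ∨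
    (ev (j + 2 * 4 ^ f) = ev j + 2 * 2 ^ f ∧ od (j + 2 * 4 ^ f) + 2 ^ f = od j) ∨
    dg (j + 2 * 4 ^ f) < dg j := by
  rcases add_two_pow_four_cases f j with h | h | h
  · exact Or.inl ⟨h.1, h.2.1⟩
  · exact Or.inr (Or.inl ⟨h.1, h.2.1⟩)
  · exact Or.inr (Or.inr h.1)

lemma dy1 (f j : ℕ) :
    (ev (j + 8 * 4 ^ f) = ev j ∧ od (j + 8 * 4 ^ f) = od j + 2 * 2 ^ f ∧
      (od j < 4 * 2 ^ f → od j < 2 * 2 ^ f)) ∨
    (ev (j + 8 * 4 ^ f) = ev j + 4 * 2 ^ f ∧ od (j + 8 * 4 ^ f) + 2 * 2 ^ f = od j) ∨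
    (dg (j + 8 * 4 ^ f) < dg j ∧ 2 * 2 ^ f ≤ od j) := by
  have hp : 0 < 2 ^ f := by positivity
  have e4 : 2 * (4 : ℕ) ^ (f + 1) = 8 * 4 ^ f := by rw [pow_succ]; ring
  have e2 : (2 : ℕ) ^ (f + 1) = 2 * 2 ^ f := pow_succ' 2 f
  have := add_two_pow_four_cases (f + 1) j
  rw [e4, e2] at this
  rcases this with ⟨h1, h2, h3⟩ | ⟨h1, h2, h3⟩ | ⟨h1, h3⟩
  · refine Or.inl ⟨h1, h2, fun h4 => ?_⟩
    by_contra hcon
    have h5 : od j / (2 * 2 ^ f) = 1 := by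
      rw [Nat.div_eq_iff (by omega)]
      omega
    omega
  · exact Or.inr (Or.inl ⟨by omega, h2⟩)
  · refine Or.inr (Or.inr ⟨h1, ?_⟩)
    by_contra hcon
    rw [Nat.div_eq_of_lt (by omega)] at h3
    omega

lemma dtopA (f j : ℕ) (h : j < 16 * 4 ^ f) :
    ev (j + 16 * 4 ^ f) = ev j + 4 * 2 ^ f ∧ od (j + 16 * 4 ^ f) = od j ∧ ev j < 4 * 2 ^ f := by
  have e4 : 4 * (4 : ℕ) ^ (f + 1) = 16 * 4 ^ f := by rw [pow_succ]; ring
  have e2 : 2 * (2 : ℕ) ^ (f + 1) = 4 * 2 ^ f := by rw [pow_succ]; ring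
  have h1 := ev_top (f + 1) j (by omega)
  have h2 := od_top (f + 1) j (by omega)
  rw [e4] at h1 h2
  rw [e2] at h1
  refine ⟨h1, h2, ?_⟩
  have e5 : (4 : ℕ) ^ (f + 2) = 16 * 4 ^ f := by rw [pow_add]; ring
  have e6 : (2 : ℕ) ^ (f + 2) = 4 * 2 ^ f := by rw [pow_add]; ring
  have := ev_lt (f + 2) j (by omega)
  omega

lemma dtopB (f j : ℕ) (h : j < 32 * 4 ^ f) :
    ev (j + 32 * 4 ^ f) = ev j ∧ od (j + 32 * 4 ^ f) = od j + 4 * 2 ^ f ∧ od j < 4 * 2 ^ f := by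
  have e4 : 8 * (4 : ℕ) ^ (f + 1) = 32 * 4 ^ f := by rw [pow_succ]; ring
  have e2 : 2 * (2 : ℕ) ^ (f + 1) = 4 * 2 ^ f := by rw [pow_succ]; ring
  have h1 := ev_top' (f + 1) j (by omega)
  have h2 := od_top' (f + 1) j (by omega)
  rw [e4] at h1 h2
  rw [e2] at h2
  refine ⟨h1, h2, ?_⟩
  by_cases h3 : j < 16 * 4 ^ f
  · have e5 : (4 : ℕ) ^ (f + 2) = 16 * 4 ^ f := by rw [pow_add]; ring
    have e6 : (2 : ℕ) ^ (f + 2) = 4 * 2 ^ f := by rw [pow_add]; ring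
    have := od_lt (f + 2) j (by omega)
    omega
  · have h4 := dtopA f (j - 16 * 4 ^ f) (by omega)
    have e7 : j - 16 * 4 ^ f + 16 * 4 ^ f = j := by omega
    rw [e7] at h4
    have e5 : (4 : ℕ) ^ (f + 2) = 16 * 4 ^ f := by rw [pow_add]; ring
    have e6 : (2 : ℕ) ^ (f + 2) = 4 * 2 ^ f := by rw [pow_add]; ring
    have := od_lt (f + 2) (j - 16 * 4 ^ f) (by omega)
    omega

/-- The recurrence in the two cases. -/
lemma recA (f ρ : ℕ) : TT 5 (DD ^ (2 * (ρ + 16 * 4 ^ f) + 1)) =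
    DD ^ (2 * (16 * 4 ^ f)) * TT 5 (DD ^ (2 * ρ + 1)) +
    DD ^ (2 * (8 * 4 ^ f)) * TT 5 (DD ^ (2 * ρ + 1)) +
    DD ^ (2 * (4 * 4 ^ f)) * TT 5 (DD ^ (2 * (ρ + 4 * 4 ^ f) + 1)) +
    DD ^ (2 * (3 * 4 ^ f)) * TT 5 (DD ^ (2 * (ρ + 4 ^ f) + 1)) := by
  have h := TT_five_rec (2 * ρ + 1) (2 * f + 1)
  have e : (2 : ℕ) ^ (2 * f + 1) = 2 * 4 ^ f := by rw [pow_succ, pow_mul]; ring
  rw [e] at h
  have e1 : 2 * ρ + 1 + 16 * (2 * 4 ^ f) = 2 * (ρ + 16 * 4 ^ f) + 1 := by ring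
  have e2 : 16 * (2 * 4 ^ f) = 2 * (16 * 4 ^ f) := by ring
  have e3 : 8 * (2 * 4 ^ f) = 2 * (8 * 4 ^ f) := by ring
  have e4 : 4 * (2 * 4 ^ f) = 2 * (4 * 4 ^ f) := by ring
  have e5 : 3 * (2 * 4 ^ f) = 2 * (3 * 4 ^ f) := by ring
  have e6 : 2 * ρ + 1 + 2 * (4 * 4 ^ f) = 2 * (ρ + 4 * 4 ^ f) + 1 := by ring
  have e7 : 2 * ρ + 1 + 2 * 4 ^ f = 2 * (ρ + 4 ^ f) + 1 := by ring
  rw [e1, e2, e3, e4, e5, e6, e7] at h
  exact h

lemma recB (f ρ : ℕ) : TT 5 (DD ^ (2 * (ρ + 32 * 4 ^ f) + 1)) =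
    DD ^ (2 * (32 * 4 ^ f)) * TT 5 (DD ^ (2 * ρ + 1)) +
    DD ^ (2 * (16 * 4 ^ f)) * TT 5 (DD ^ (2 * ρ + 1)) +
    DD ^ (2 * (8 * 4 ^ f)) * TT 5 (DD ^ (2 * (ρ + 8 * 4 ^ f) + 1)) +
    DD ^ (2 * (6 * 4 ^ f)) * TT 5 (DD ^ (2 * (ρ + 2 * 4 ^ f) + 1)) := by
  have h := TT_five_rec (2 * ρ + 1) (2 * f + 2)
  have e : (2 : ℕ) ^ (2 * f + 2) = 4 * 4 ^ f := by rw [pow_add, pow_mul]; ring
  rw [e] at h
  have e1 : 2 * ρ + 1 + 16 * (4 * 4 ^ f) = 2 * (ρ + 32 * 4 ^ f) + 1 := by ring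
  have e2 : 16 * (4 * 4 ^ f) = 2 * (32 * 4 ^ f) := by ring
  have e3 : 8 * (4 * 4 ^ f) = 2 * (16 * 4 ^ f) := by ring
  have e4 : 4 * (4 * 4 ^ f) = 2 * (8 * 4 ^ f) := by ring
  have e5 : 3 * (4 * 4 ^ f) = 2 * (6 * 4 ^ f) := by ring
  have e6 : 2 * ρ + 1 + 2 * (8 * 4 ^ f) = 2 * (ρ + 8 * 4 ^ f) + 1 := by ring
  have e7 : 2 * ρ + 1 + 4 * 4 ^ f = 2 * (ρ + 2 * 4 ^ f) + 1 := by ring
  rw [e1, e2, e3, e4, e5, e6, e7] at h
  exact h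

lemma D5_stepA (f ρ : ℕ) (hρ : ρ < 16 * 4 ^ f) (h0 : D5 ρ) (h4 : D5 (ρ + 4 * 4 ^ f))
    (h1 : D5 (ρ + 4 ^ f)) : D5 (ρ + 16 * 4 ^ f) := by
  have hP : 0 < 4 ^ f := by positivity
  have hp : 0 < 2 ^ f := by positivity
  obtain ⟨k1, k2, k3⟩ := dtopA f ρ hρ
  have k4 : dg (ρ + 16 * 4 ^ f) = dg ρ + 4 * 2 ^ f := by unfold dg; omega
  -- the four parts
  have t2 : DD ^ (2 * (8 * 4 ^ f)) * TT 5 (DD ^ (2 * ρ + 1)) ∈
      Lo (ρ + 16 * 4 ^ f) (dg (ρ + 16 * 4 ^ f)) (od (ρ + 16 * 4 ^ f) - 1) := by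
    refine Lo_shift _ (fun j a1 a2 a3 => ?_) h0.weak
    have b := dy1 f j
    rw [k4, k2]
    unfold dg at *
    omega
  have t4 : DD ^ (2 * (3 * 4 ^ f)) * TT 5 (DD ^ (2 * (ρ + 4 ^ f) + 1)) ∈
      Lo (ρ + 16 * 4 ^ f) (dg (ρ + 16 * 4 ^ f)) (od (ρ + 16 * 4 ^ f) - 1) := by
    refine Lo_shift _ (fun j a1 a2 a3 => ?_) h1.weak
    have b1 := dx0 f j
    have b2 := dy0 f (j + 4 ^ f)
    have b3 := dx0 f ρ
    rw [show j + 4 ^ f + 2 * 4 ^ f = j + 3 * 4 ^ f by ring] at b2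
    rw [k4, k2]
    unfold dg at *
    omega
  obtain ⟨f4, hf4, g0, g1⟩ := h4
  have t3 : DD ^ (2 * (4 * 4 ^ f)) * TT 5 (DD ^ (2 * (ρ + 4 * 4 ^ f) + 1)) ∈
      Lo (ρ + 16 * 4 ^ f) (dg (ρ + 16 * 4 ^ f)) (od (ρ + 16 * 4 ^ f) - 1) := by
    have c1 := dx1 f ρ
    have t5 : DD ^ (2 * (4 * 4 ^ f)) * f4 ∈
        Lo (ρ + 16 * 4 ^ f) (dg (ρ + 16 * 4 ^ f)) (od (ρ + 16 * 4 ^ f) - 1) := by
      refine Lo_shift _ (fun j a1 a2 a3 => ?_) hf4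
      have b := dx1 f j
      rw [k4, k2]
      unfold dg at *
      omega
    by_cases ho : od (ρ + 4 * 4 ^ f) = 0
    · rw [g0 ho]; exact t5
    · obtain ⟨μ, m1, m2, m3, m4⟩ := g1 (by omega)
      rw [m4, mul_add]
      refine Submodule.add_mem _ ?_ t5
      rw [← pow_add, show 2 * (4 * 4 ^ f) + (2 * μ + 1) = 2 * (μ + 4 * 4 ^ f) + 1 by ring]
      have b := dx1 f μ
      refine Lo_mem (by omega) ?_ ?_
      · rw [k4]
        unfold dg at *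
        omega
      · rw [k4, k2]
        unfold dg at *
        omega
  obtain ⟨f0, hf0, r0, r1⟩ := h0
  have t1 : DD ^ (2 * (16 * 4 ^ f)) * f0 ∈
      Lo (ρ + 16 * 4 ^ f) (dg (ρ + 16 * 4 ^ f)) (od (ρ + 16 * 4 ^ f) - 1) := by
    refine Lo_shift _ (fun j a1 a2 a3 => ?_) hf0
    have b := dtopA f j (by omega)
    rw [k4, k2]
    unfold dg at *
    omega
  refine ⟨DD ^ (2 * (16 * 4 ^ f)) * f0 + DD ^ (2 * (8 * 4 ^ f)) * TT 5 (DD ^ (2 * ρ + 1)) +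
    DD ^ (2 * (4 * 4 ^ f)) * TT 5 (DD ^ (2 * (ρ + 4 * 4 ^ f) + 1)) +
    DD ^ (2 * (3 * 4 ^ f)) * TT 5 (DD ^ (2 * (ρ + 4 ^ f) + 1)),
    Submodule.add_mem _ (Submodule.add_mem _ (Submodule.add_mem _ t1 t2) t3) t4, ?_, ?_⟩
  · intro ho
    rw [k2] at ho
    rw [recA]
    congr 3
    rw [r0 ho]
  · intro ho
    rw [k2] at ho
    obtain ⟨μ, m1, m2, m3, m4⟩ := r1 ho
    refine ⟨μ + 16 * 4 ^ f, by omega, ?_, ?_, ?_⟩
    · have b := dtopA f μ (by omega)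
      omega
    · have b := dtopA f μ (by omega)
      omega
    · rw [recA]
      nth_rewrite 1 [m4]
      rw [mul_add, ← pow_add, show 2 * (16 * 4 ^ f) + (2 * μ + 1) = 2 * (μ + 16 * 4 ^ f) + 1 by ring]
      ring

lemma D5_stepB (f ρ : ℕ) (hρ : ρ < 32 * 4 ^ f) (h0 : D5 ρ) (h8 : D5 (ρ + 8 * 4 ^ f))
    (h2 : D5 (ρ + 2 * 4 ^ f)) : D5 (ρ + 32 * 4 ^ f) := by
  have hP : 0 < 4 ^ f := by positivity
  have hp : 0 < 2 ^ f := by positivity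
  obtain ⟨k1, k2, k3⟩ := dtopB f ρ hρ
  have k4 : dg (ρ + 32 * 4 ^ f) = dg ρ + 4 * 2 ^ f := by unfold dg; omega
  have t2 : DD ^ (2 * (16 * 4 ^ f)) * TT 5 (DD ^ (2 * ρ + 1)) ∈
      Lo (ρ + 32 * 4 ^ f) (dg (ρ + 32 * 4 ^ f)) (od (ρ + 32 * 4 ^ f) - 1) := by
    refine Lo_shift _ (fun j a1 a2 a3 => ?_) h0.weak
    have b := dx2 f j
    rw [k4, k2]
    unfold dg at *
    omega
  have t4 : DD ^ (2 * (6 * 4 ^ f)) * TT 5 (DD ^ (2 * (ρ + 2 * 4 ^ f) + 1)) ∈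
      Lo (ρ + 32 * 4 ^ f) (dg (ρ + 32 * 4 ^ f)) (od (ρ + 32 * 4 ^ f) - 1) := by
    refine Lo_shift _ (fun j a1 a2 a3 => ?_) h2.weak
    have b1 := dy0 f j
    have b2 := dx1 f (j + 2 * 4 ^ f)
    have b3 := dy0 f ρ
    rw [show j + 2 * 4 ^ f + 4 * 4 ^ f = j + 6 * 4 ^ f by ring] at b2
    rw [k4, k2]
    unfold dg at *
    omega
  obtain ⟨f8, hf8, g0, g1⟩ := h8
  have c1 := dy1 f ρ
  have t5 : DD ^ (2 * (8 * 4 ^ f)) * f8 ∈
      Lo (ρ + 32 * 4 ^ f) (dg (ρ + 32 * 4 ^ f)) (od (ρ + 32 * 4 ^ f) - 1) := by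
    refine Lo_shift _ (fun j a1 a2 a3 => ?_) hf8
    have b := dy1 f j
    rw [k4, k2]
    unfold dg at *
    omega
  obtain ⟨f0, hf0, r0, r1⟩ := h0
  have t1 : DD ^ (2 * (32 * 4 ^ f)) * f0 ∈
      Lo (ρ + 32 * 4 ^ f) (dg (ρ + 32 * 4 ^ f)) (od (ρ + 32 * 4 ^ f) - 1) := by
    refine Lo_shift _ (fun j a1 a2 a3 => ?_) hf0
    have b := dtopB f j (by omega)
    rw [k4, k2]
    unfold dg at *
    omega
  by_cases hor : od ρ = 0
  · -- the leading term comes from the third summand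
    have hs : ev (ρ + 8 * 4 ^ f) = ev ρ ∧ od (ρ + 8 * 4 ^ f) = od ρ + 2 * 2 ^ f := by
      clear r0 r1 g0 g1
      omega
    obtain ⟨μ, m1, m2, m3, m4⟩ := g1 (by omega)
    have b := dy1 f μ
    have b1 : ev (μ + 8 * 4 ^ f) = ev μ ∧ od (μ + 8 * 4 ^ f) = od μ + 2 * 2 ^ f := by
      clear r0 r1 g0 g1
      unfold dg at *
      omega
    have hr := r0 hor
    refine ⟨DD ^ (2 * (32 * 4 ^ f)) * f0 + DD ^ (2 * (16 * 4 ^ f)) * TT 5 (DD ^ (2 * ρ + 1)) +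
      DD ^ (2 * (8 * 4 ^ f)) * f8 +
      DD ^ (2 * (6 * 4 ^ f)) * TT 5 (DD ^ (2 * (ρ + 2 * 4 ^ f) + 1)),
      Submodule.add_mem _ (Submodule.add_mem _ (Submodule.add_mem _ t1 t2) t5) t4, ?_, ?_⟩
    · intro ho
      omega
    · intro _
      refine ⟨μ + 8 * 4 ^ f, by omega, by omega, by omega, ?_⟩
      rw [recB, m4]
      nth_rewrite 1 [hr]
      rw [mul_add, ← pow_add, show 2 * (8 * 4 ^ f) + (2 * μ + 1) = 2 * (μ + 8 * 4 ^ f) + 1 by ring]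
      ring
  · have t3 : DD ^ (2 * (8 * 4 ^ f)) * TT 5 (DD ^ (2 * (ρ + 8 * 4 ^ f) + 1)) ∈
        Lo (ρ + 32 * 4 ^ f) (dg (ρ + 32 * 4 ^ f)) (od (ρ + 32 * 4 ^ f) - 1) := by
      by_cases ho : od (ρ + 8 * 4 ^ f) = 0
      · rw [g0 ho]; exact t5
      · obtain ⟨μ, m1, m2, m3, m4⟩ := g1 (by omega)
        rw [m4, mul_add]
        refine Submodule.add_mem _ ?_ t5
        rw [← pow_add, show 2 * (8 * 4 ^ f) + (2 * μ + 1) = 2 * (μ + 8 * 4 ^ f) + 1 by ring]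
        have b := dy1 f μ
        clear r0 r1 g0 g1
        refine Lo_mem (by omega) ?_ ?_
        · rw [k4]
          unfold dg at *
          omega
        · rw [k4, k2]
          unfold dg at *
          omega
    refine ⟨DD ^ (2 * (32 * 4 ^ f)) * f0 + DD ^ (2 * (16 * 4 ^ f)) * TT 5 (DD ^ (2 * ρ + 1)) +
      DD ^ (2 * (8 * 4 ^ f)) * TT 5 (DD ^ (2 * (ρ + 8 * 4 ^ f) + 1)) +
      DD ^ (2 * (6 * 4 ^ f)) * TT 5 (DD ^ (2 * (ρ + 2 * 4 ^ f) + 1)),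
      Submodule.add_mem _ (Submodule.add_mem _ (Submodule.add_mem _ t1 t2) t3) t4, ?_, ?_⟩
    · intro ho
      omega
    · intro _
      obtain ⟨μ, m1, m2, m3, m4⟩ := r1 (by omega)
      have b := dtopB f μ (by omega)
      refine ⟨μ + 32 * 4 ^ f, by omega, by omega, by omega, ?_⟩
      rw [recB]
      nth_rewrite 1 [m4]
      rw [mul_add, ← pow_add, show 2 * (32 * 4 ^ f) + (2 * μ + 1) = 2 * (μ + 32 * 4 ^ f) + 1 by ring]
      ring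

/-- The leading term of `T_5 (Δ ^ (2 κ + 1))`. -/
theorem dom_five (κ : ℕ) : D5 κ := by
  induction κ using Nat.strong_induction_on with
  | _ κ ih =>
    by_cases h : κ < 16
    · exact D5_base κ h
    · obtain ⟨f, hf1, hf2⟩ : ∃ f, 16 * 4 ^ f ≤ κ ∧ κ < 64 * 4 ^ f := by
        have h1 := Nat.pow_log_le_self 4 (x := κ) (by omega)
        have h2 := Nat.lt_pow_succ_log_self (b := 4) (by norm_num) κ
        have h3 : 2 ≤ Nat.log 4 κ := Nat.le_log_of_pow_le (by norm_num) (by norm_num; omega)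
        refine ⟨Nat.log 4 κ - 2, ?_, ?_⟩
        · have e : 16 * 4 ^ (Nat.log 4 κ - 2) = 4 ^ Nat.log 4 κ := by
            rw [show (16 : ℕ) = 4 ^ 2 by norm_num, ← pow_add]
            congr 1; omega
          rw [e]; exact h1
        · have e : 64 * 4 ^ (Nat.log 4 κ - 2) = 4 ^ (Nat.log 4 κ + 1) := by
            rw [show (64 : ℕ) = 4 ^ 3 by norm_num, ← pow_add]
            congr 1; omega
          rw [e]; exact h2
      have hP : 0 < 4 ^ f := by positivity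
      by_cases hc : κ < 32 * 4 ^ f
      · have e : κ = (κ - 16 * 4 ^ f) + 16 * 4 ^ f := by omega
        rw [e]
        exact D5_stepA f _ (by omega) (ih _ (by omega)) (ih _ (by omega)) (ih _ (by omega))
      · have e : κ = (κ - 32 * 4 ^ f) + 32 * 4 ^ f := by omega
        rw [e]
        exact D5_stepB f _ (by omega) (ih _ (by omega)) (ih _ (by omega)) (ih _ (by omega))

end Pool.Agent.helper7.OC
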