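import Mathlib
import Pool.Agent.helper79.OC.AA0
import Pool.Agent.helper38.PO.Rec

/-!
Project OC, module AA1: coefficients of `Δ` and `Δ ^ 5` modulo 2.
-/

set_option autoImplicit false
open Finset PowerSeries
open Pool.Agent.helper81 (EE)
open Pool.Agent.helper12.PE (DD pow_eq_expand)

namespace Pool.Agent.helper7.OC

lemma coeff_DD_eight (m : ℕ) : coeff (8 * m + 1) DD = coeff m (EE ^ 3) := by
  have h := DD_pow_eq 1
  rw [pow_one, pow_one, mul_one] at h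
  rw [h, coeff_succ_X_mul, coeff_expand_mul]

theorem coeff_DD_sq (k : ℕ) (hk : k % 2 = 1) : coeff (k ^ 2) DD = 1 := by
  obtain ⟨s, rfl⟩ : ∃ s, k = 2 * s + 1 := ⟨k / 2, by omega⟩
  have h2 : 2 * (s * (s + 1) / 2) = s * (s + 1) :=
    Nat.mul_div_cancel' (Nat.even_mul_succ_self s).two_dvd
  have h1 : (2 * s + 1) ^ 2 = 8 * (s * (s + 1) / 2) + 1 := by
    calc (2 * s + 1) ^ 2 = 4 * (s * (s + 1)) + 1 := by ring
      _ = 4 * (2 * (s * (s + 1) / 2)) + 1 := by rw [h2]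
      _ = _ := by ring
  rw [h1, coeff_DD_eight, Pool.Agent.helper38.PO.coeff_cube, if_pos ⟨s, rfl⟩]

theorem coeff_DD_eq_zero (n : ℕ) (h : ∀ k, k % 2 = 1 → n ≠ k ^ 2) : coeff n DD = 0 := by
  by_contra hne
  have h1 : n % 8 = 1 := by
    have := coeff_DD_pow_mod n 1 (by rwa [pow_one])
    omega
  obtain ⟨m, rfl⟩ : ∃ m, n = 8 * m + 1 := ⟨n / 8, by omega⟩
  rw [coeff_DD_eight, Pool.Agent.helper38.PO.coeff_cube] at hne
  split_ifs at hne with hs
  · obtain ⟨s, hs⟩ := hs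
    have h2 : 2 * (s * (s + 1) / 2) = s * (s + 1) :=
      Nat.mul_div_cancel' (Nat.even_mul_succ_self s).two_dvd
    refine h (2 * s + 1) (by omega) ?_
    calc 8 * m + 1 = 4 * (2 * (s * (s + 1) / 2)) + 1 := by rw [hs]; ring
      _ = 4 * (s * (s + 1)) + 1 := by rw [h2]
      _ = _ := by ring
  · exact hne rfl

lemma exists_sq_of_coeff_ne {n : ℕ} (h : coeff n DD ≠ 0) : ∃ k, k % 2 = 1 ∧ n = k ^ 2 := by
  by_contra hcon
  push Not at hcon
  exact h (coeff_DD_eq_zero n hcon)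

/-- uniqueness of `x² + 4 y²` -/
lemma form_unique {p x y u v : ℕ} (hp : p.Prime) (hx : 0 < x) (hy : 0 < y) (hu : 0 < u)
    (hv : 0 < v) (h1 : x ^ 2 + 4 * y ^ 2 = p) (h2 : u ^ 2 + 4 * v ^ 2 = p) : x = u ∧ y = v := by
  have h1' : (x : ℤ) ^ 2 + 4 * (y : ℤ) ^ 2 = p := by exact_mod_cast h1
  have h2' : (u : ℤ) ^ 2 + 4 * (v : ℤ) ^ 2 = p := by exact_mod_cast h2
  have hx' : (0 : ℤ) < x := by exact_mod_cast hx
  have hy' : (0 : ℤ) < y := by exact_mod_cast hy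
  have hu' : (0 : ℤ) < u := by exact_mod_cast hu
  have hv' : (0 : ℤ) < v := by exact_mod_cast hv
  have hp' : Prime (p : ℤ) := Nat.prime_iff_prime_int.mp hp
  have hp0 : (0 : ℤ) < p := by exact_mod_cast hp.pos
  have key : ((x : ℤ) * v - u * y) * (x * v + u * y) = p * (v ^ 2 - y ^ 2) := by
    linear_combination (v : ℤ) ^ 2 * h1' - (y : ℤ) ^ 2 * h2'
  have b1 : ((x : ℤ) * u + 4 * y * v) ^ 2 + 4 * (x * v - u * y) ^ 2 = p ^ 2 := by
    linear_combination ((u : ℤ) ^ 2 + 4 * v ^ 2) * h1' + p * h2'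
  have b2 : ((x : ℤ) * u - 4 * y * v) ^ 2 + 4 * (x * v + u * y) ^ 2 = p ^ 2 := by
    linear_combination ((u : ℤ) ^ 2 + 4 * v ^ 2) * h1' + p * h2'
  have hxy : (x : ℤ) * v = u * y := by
    rcases hp'.dvd_or_dvd (Dvd.intro _ key.symm) with h | h
    · have habs : |(x : ℤ) * v - u * y| < p := by
        rw [← abs_of_pos hp0]
        apply sq_lt_sq.mp
        have : 0 < ((x : ℤ) * u + 4 * y * v) ^ 2 := by positivity
        nlinarith [sq_nonneg ((x : ℤ) * v - u * y)]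
      have := Int.eq_zero_of_abs_lt_dvd h habs
      linarith
    · have hpos : 0 < (x : ℤ) * v + u * y := by positivity
      have hlt : (x : ℤ) * v + u * y < p := by
        nlinarith [sq_nonneg ((x : ℤ) * u - 4 * y * v)]
      exact absurd (Int.le_of_dvd hpos h) (by linarith)
  have hxu : (x : ℤ) = u := by
    rcases lt_trichotomy (x : ℤ) u with h | h | h
    · exfalso
      have h3 : (y : ℤ) < v := by
        by_contra hcon
        push Not at hcon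
        nlinarith
      nlinarith
    · exact h
    · exfalso
      have h3 : (v : ℤ) < y := by
        by_contra hcon
        push Not at hcon
        nlinarith
      nlinarith
  have hxu' : x = u := by exact_mod_cast hxu
  refine ⟨hxu', ?_⟩
  rw [hxu] at hxy
  have : (v : ℤ) = y := mul_left_cancel₀ (by positivity) hxy
  exact_mod_cast this.symm

/-- `Δ⁵ = Δ Δ⁴` and a prime `≡ 5 mod 8` is `x² + 4 y²`, `x`, `y` odd, in exactly one way. -/
theorem coeff_DD_five (ℓ : ℕ) (hℓ : ℓ.Prime) (h : ℓ % 8 = 5) : coeff ℓ (DD ^ 5) = 1 := by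
  have : Fact ℓ.Prime := ⟨hℓ⟩
  obtain ⟨x, y, hx, hy, hxy⟩ : ∃ x y, x % 2 = 1 ∧ y % 2 = 1 ∧ x ^ 2 + 4 * y ^ 2 = ℓ := by
    obtain ⟨a, b, hab⟩ := Nat.Prime.sq_add_sq (p := ℓ) (by omega)
    have key : ∀ a b : ℕ, a ^ 2 + b ^ 2 = ℓ → a % 2 = 1 → ∃ x y, x % 2 = 1 ∧ y % 2 = 1 ∧
        x ^ 2 + 4 * y ^ 2 = ℓ := by
      intro a b hab ha
      have hb : b % 2 = 0 := by
        by_contra hb
        have hb1 : b % 2 = 1 := by omega
        have e1 : a ^ 2 % 2 = 1 := by rw [Nat.pow_mod, ha]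
        have e2 : b ^ 2 % 2 = 1 := by rw [Nat.pow_mod, hb1]
        omega
      obtain ⟨c, rfl⟩ : ∃ c, b = 2 * c := ⟨b / 2, by omega⟩
      refine ⟨a, c, ha, ?_, by rw [← hab]; ring⟩
      by_contra hc
      obtain ⟨d, rfl⟩ : ∃ d, c = 2 * d := ⟨c / 2, by omega⟩
      have e1 : a ^ 2 % 8 = 1 := by
        have : a % 8 = 1 ∨ a % 8 = 3 ∨ a % 8 = 5 ∨ a % 8 = 7 := by omega
        rcases this with h | h | h | h <;> rw [Nat.pow_mod, h]
      have e2 : (2 * (2 * d)) ^ 2 = 8 * (2 * d ^ 2) := by ring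
      rw [e2] at hab
      omega
    rcases Nat.mod_two_eq_zero_or_one a with ha | ha
    · refine key b a (by rw [add_comm]; exact hab) ?_
      by_contra hb
      have e1 : a ^ 2 % 2 = 0 := by rw [Nat.pow_mod, ha]
      have e2 : b ^ 2 % 2 = 0 := by rw [Nat.pow_mod, show b % 2 = 0 by omega]
      omega
    · exact key a b hab ha
  have h4 : DD ^ 4 = PowerSeries.expand 4 (by norm_num) DD := by
    have := pow_eq_expand DD 2
    simpa using this
  rw [show DD ^ 5 = DD * DD ^ 4 by ring, h4, coeff_mul, Finset.sum_eq_single (x ^ 2, 4 * y ^ 2)]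
  · simp only
    rw [coeff_expand_mul, coeff_DD_sq x hx, coeff_DD_sq y hy, mul_one]
  · rintro ⟨a, b⟩ hab hne
    rw [HasAntidiagonal.mem_antidiagonal] at hab
    simp only at hab ⊢
    by_contra hprod
    have ha : coeff a DD ≠ 0 := fun h0 => hprod (by rw [h0, zero_mul])
    have hb : coeff b (PowerSeries.expand 4 (by norm_num) DD) ≠ 0 :=
      fun h0 => hprod (by rw [h0, mul_zero])
    rw [coeff_expand] at hb
    by_cases h4b : 4 ∣ b
    · rw [if_pos h4b] at hb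
      obtain ⟨c, rfl⟩ := h4b
      rw [Nat.mul_div_cancel_left _ (by norm_num)] at hb
      obtain ⟨u, hu, rfl⟩ := exists_sq_of_coeff_ne ha
      obtain ⟨v, hv, rfl⟩ := exists_sq_of_coeff_ne hb
      obtain ⟨e1, e2⟩ := form_unique hℓ (x := x) (y := y) (u := u) (v := v) (by omega) (by omega)
        (by omega) (by omega) hxy hab
      exact hne (by rw [e1, e2])
    · rw [if_neg h4b] at hb
      exact hb rfl
  · intro hn
    exact absurd (HasAntidiagonal.mem_antidiagonal.mpr hxy) hn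

/-- `T_ℓ Δ = 0`. -/
theorem TT_one (ℓ : ℕ) (hℓ : ℓ.Prime) (h2 : ℓ ≠ 2) : TT ℓ (DD ^ 1) = 0 := by
  have hmem := TT_mem ℓ 1 hℓ h2
  have hodd : ℓ % 2 = 1 := Nat.odd_iff.mp (hℓ.odd_of_ne_two h2)
  have hsub : {f : (ZMod 2)⟦X⟧ | ∃ i, i ≤ 1 ∧ i % 8 = ℓ * 1 % 8 ∧ f = DD ^ i} ⊆ {DD ^ 1} := by
    rintro f ⟨i, hi, hi2, rfl⟩
    have : i = 1 := by omega
    rw [this]; rfl
  have h3 := Submodule.span_mono (R := ZMod 2) hsub hmem
  rw [Submodule.mem_span_singleton] at h3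
  obtain ⟨a, ha⟩ := h3
  have h4 := congrArg (coeff 1) ha
  rw [coeff_TT, coeff_smul, coeff_DD_pow_self, mul_one, pow_one, if_neg (by
    intro h; exact hℓ.one_lt.ne' (Nat.dvd_one.mp h)), add_zero, smul_eq_mul, mul_one,
    coeff_DD_eq_zero ℓ ?_] at h4
  · rw [← ha, h4, zero_smul]
  · intro k _ hk
    have h5 : k ∣ ℓ := ⟨k, by rw [hk]; ring⟩
    rcases (Nat.dvd_prime hℓ).mp h5 with h6 | h6
    · rw [h6] at hk
      exact hℓ.one_lt.ne' (by rw [hk]; norm_num)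
    · rw [h6] at hk
      have := hℓ.one_lt
      nlinarith

/-- `T_ℓ Δ³ = 0` for `ℓ ≡ 5 mod 8`. -/
theorem TT_three_of_five (ℓ : ℕ) (hℓ : ℓ.Prime) (h5 : ℓ % 8 = 5) : TT ℓ (DD ^ 3) = 0 := by
  have hmem := TT_mem ℓ 3 hℓ (by omega)
  have h2 : {f : (ZMod 2)⟦X⟧ | ∃ i, i ≤ 3 ∧ i % 8 = ℓ * 3 % 8 ∧ f = DD ^ i} = ∅ := by
    ext f
    simp only [Set.mem_ofPred_eq, Set.mem_empty_iff_false, iff_false]
    rintro ⟨i, hi, hi2, _⟩
    omega
  rwa [h2, Submodule.span_empty, Submodule.mem_bot] at hmem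

/-- `T_ℓ Δ⁵ = Δ` for `ℓ ≡ 5 mod 8`. -/
theorem TT_five_of_five (ℓ : ℕ) (hℓ : ℓ.Prime) (h5 : ℓ % 8 = 5) : TT ℓ (DD ^ 5) = DD ^ 1 := by
  have hmem := TT_mem ℓ 5 hℓ (by omega)
  have hsub : {f : (ZMod 2)⟦X⟧ | ∃ i, i ≤ 5 ∧ i % 8 = ℓ * 5 % 8 ∧ f = DD ^ i} ⊆ {DD ^ 1} := by
    rintro f ⟨i, hi, hi2, rfl⟩
    have : i = 1 := by omega
    rw [this]; rfl
  have h3 := Submodule.span_mono (R := ZMod 2) hsub hmem
  rw [Submodule.mem_span_singleton] at h3
  obtain ⟨a, ha⟩ := h3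
  have h4 := congrArg (coeff 1) ha
  rw [coeff_TT, coeff_smul, coeff_DD_pow_self, mul_one, if_neg (by
    intro h; exact hℓ.one_lt.ne' (Nat.dvd_one.mp h)), add_zero, smul_eq_mul, mul_one,
    coeff_DD_five ℓ hℓ h5] at h4
  rw [← ha, h4, one_smul]

end Pool.Agent.helper7.OC
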