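import Mathlib
import Pool.Agent.helper38.PO.Dom3c
import Pool.Agent.helper79.OC.AA1

/-!
Project OC, module AA4: the Hecke operators lower the height; the coefficients of
`Δ ^ ((4 ^ μ - 1) / 3)` at products of primes.
-/

set_option autoImplicit false
open PowerSeries Finset

namespace Pool.Agent.helper7.OC

open Pool.Agent.helper81 (two_eq_zero')
open Pool.Agent.helper12.PE (DD)

/-- The span of the `Δ ^ (2 j + 1)` with `Q j`. -/
noncomputable def Sp (Q : ℕ → Prop) : Submodule (ZMod 2) (ZMod 2)⟦X⟧ :=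
  Submodule.span (ZMod 2) {f | ∃ j : ℕ, Q j ∧ f = DD ^ (2 * j + 1)}

lemma Sp_mem {Q : ℕ → Prop} {j : ℕ} (h : Q j) : DD ^ (2 * j + 1) ∈ Sp Q :=
  Submodule.subset_span ⟨j, h, rfl⟩

lemma Sp_mono {Q Q' : ℕ → Prop} (h : ∀ j, Q j → Q' j) : Sp Q ≤ Sp Q' := by
  apply Submodule.span_mono
  rintro f ⟨j, hj, rfl⟩
  exact ⟨j, h j hj, rfl⟩

lemma Lo_le_Sp {N H B : ℕ} {Q : ℕ → Prop}
    (h : ∀ j, j < N → dg j < H → (dg j + 1 = H → od j < B) → Q j) : Lo N H B ≤ Sp Q := by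
  apply Submodule.span_mono
  rintro f ⟨j, h1, h2, h3, rfl⟩
  exact ⟨j, h j h1 h2 h3, rfl⟩

lemma Sp_map {Q : ℕ → Prop} (W : Submodule (ZMod 2) (ZMod 2)⟦X⟧)
    (T : (ZMod 2)⟦X⟧ →ₗ[ZMod 2] (ZMod 2)⟦X⟧) (h : ∀ j, Q j → T (DD ^ (2 * j + 1)) ∈ W)
    {g : (ZMod 2)⟦X⟧} (hg : g ∈ Sp Q) : T g ∈ W := by
  unfold Sp at hg
  induction hg using Submodule.span_induction with
  | mem x hx =>
    obtain ⟨j, h1, rfl⟩ := hx
    exact h j h1
  | zero => rw [map_zero]; exact Submodule.zero_mem _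
  | add x y _ _ hx hy => rw [map_add]; exact Submodule.add_mem _ hx hy
  | smul a x _ hx => rw [map_smul]; exact Submodule.smul_mem _ _ hx

lemma Sp_empty {Q : ℕ → Prop} (h : ∀ j, ¬ Q j) {g : (ZMod 2)⟦X⟧} (hg : g ∈ Sp Q) : g = 0 := by
  have h1 : {f : (ZMod 2)⟦X⟧ | ∃ j : ℕ, Q j ∧ f = DD ^ (2 * j + 1)} = ∅ := by
    ext f
    simp only [Set.mem_ofPred_eq, Set.mem_empty_iff_false, iff_false]
    rintro ⟨j, hj, _⟩
    exact h j hj
  unfold Sp at hg
  rwa [h1, Submodule.span_empty, Submodule.mem_bot] at hg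

lemma notMem_Sp {Q : ℕ → Prop} {μ : ℕ} (h : ∀ j, Q j → j ≠ μ) : DD ^ (2 * μ + 1) ∉ Sp Q := by
  intro hmem
  have h1 := linearIndependent_DD.notMem_span_image (s := {k | k ≠ 2 * μ + 1}) (x := 2 * μ + 1)
    (by simp)
  apply h1
  refine Submodule.span_mono ?_ hmem
  rintro f ⟨j, hj, rfl⟩
  exact ⟨2 * j + 1, fun he => h j hj (by omega), rfl⟩

lemma exists_sum {g : (ZMod 2)⟦X⟧} (hg : g ∈ Sp fun _ => True) :
    ∃ (s : Finset ℕ) (c : ℕ → ZMod 2), (∀ j ∈ s, c j ≠ 0) ∧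
      g = ∑ j ∈ s, c j • DD ^ (2 * j + 1) := by
  have h1 : {f : (ZMod 2)⟦X⟧ | ∃ j : ℕ, True ∧ f = DD ^ (2 * j + 1)} =
      Set.range fun j : ℕ => DD ^ (2 * j + 1) := by
    ext f
    simp only [Set.mem_ofPred_eq, Set.mem_range, true_and]
    exact ⟨fun ⟨j, hj⟩ => ⟨j, hj.symm⟩, fun ⟨j, hj⟩ => ⟨j, hj.symm⟩⟩
  unfold Sp at hg
  rw [h1, Finsupp.mem_span_range_iff_exists_finsupp] at hg
  obtain ⟨c, hc⟩ := hg
  refine ⟨c.support, c, fun j hj => Finsupp.mem_support_iff.mp hj, ?_⟩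
  rw [← hc]
  rfl

/-- The step of the kernel theorem. -/
theorem lift_height (n : ℕ) {g : (ZMod 2)⟦X⟧} (hg : g ∈ Sp fun _ => True)
    (h3 : TT 3 g ∈ Sp fun j => dg j < n) (h5 : TT 5 g ∈ Sp fun j => dg j < n) :
    g ∈ Sp fun j => dg j < n + 1 := by
  obtain ⟨s, c, hc, rfl⟩ := exists_sum hg
  by_cases hall : ∀ j ∈ s, dg j < n + 1
  · exact Submodule.sum_mem _ fun j hj => Submodule.smul_mem _ _ (Sp_mem (hall j hj))
  · exfalso
    push Not at hall
    obtain ⟨j0, hj0, hj0n⟩ := hall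
    obtain ⟨m, hm, hmax⟩ := Finset.exists_max_image s (fun j => toLex (dg j, od j)) ⟨j0, hj0⟩
    have hmax' : ∀ j ∈ s, dg j < dg m ∨ (dg j = dg m ∧ od j ≤ od m) := by
      intro j hj
      have := hmax j hj
      rw [Prod.Lex.toLex_le_toLex] at this
      exact this
    have hMn : n + 1 ≤ dg m := by
      rcases hmax' j0 hj0 with h | h <;> omega
    by_cases ho : od m = 0
    · -- use `T_3`
      obtain ⟨f, hf, -, hf1⟩ := dom_three' m
      have hev : 1 ≤ ev m := by unfold dg at hMn; omega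
      obtain ⟨μ, m1, m2, m3, m4⟩ := hf1 hev
      have hW : TT 3 (DD ^ (2 * m + 1)) ∈ Sp fun j => j ≠ μ := by
        have e1 : TT 3 (∑ j ∈ s, c j • DD ^ (2 * j + 1)) =
            c m • TT 3 (DD ^ (2 * m + 1)) + ∑ j ∈ s.erase m, c j • TT 3 (DD ^ (2 * j + 1)) := by
          rw [map_sum, ← Finset.add_sum_erase s _ hm]
          simp only [map_smul]
        have e2 : ∑ j ∈ s.erase m, c j • TT 3 (DD ^ (2 * j + 1)) ∈ Sp fun j => j ≠ μ := by
          refine Submodule.sum_mem _ fun j hj => Submodule.smul_mem _ _ ?_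
          rw [mem_erase] at hj
          have hlt : dg j < dg m := by
            rcases hmax' j hj.2 with h | h
            · exact h
            · exfalso
              refine hj.1 (ev_od_inj _ _ ?_ ?_)
              · unfold dg at h; omega
              · omega
          obtain ⟨f', hf', g0, g1⟩ := dom_three' j
          have hf2 : f' ∈ Sp fun j => j ≠ μ := by
            refine Lo_le_Sp (fun i _ h2 _ he => ?_) hf'
            subst he
            unfold dg at *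
            omega
          by_cases hevj : ev j = 0
          · rw [g0 hevj]; exact hf2
          · obtain ⟨ν, n1, n2, n3, n4⟩ := g1 (by omega)
            rw [n4]
            refine Submodule.add_mem _ (Sp_mem ?_) hf2
            rintro rfl
            unfold dg at hlt
            omega
        have e3 : TT 3 (∑ j ∈ s, c j • DD ^ (2 * j + 1)) ∈ Sp fun j => j ≠ μ := by
          refine Sp_mono (fun i hi he => ?_) h3
          subst he
          unfold dg at *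
          omega
        have e4 : c m • TT 3 (DD ^ (2 * m + 1)) ∈ Sp fun j => j ≠ μ := by
          have := Submodule.sub_mem _ e3 e2
          rwa [e1, add_sub_cancel_right] at this
        have e5 := Submodule.smul_mem _ (c m)⁻¹ e4
        rwa [smul_smul, inv_mul_cancel₀ (hc m hm), one_smul] at e5
      have hf2 : f ∈ Sp fun j => j ≠ μ := by
        refine Lo_le_Sp (fun i _ h2 h3 he => ?_) hf
        subst he
        have := h3 (by unfold dg; omega)
        omega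
      have : DD ^ (2 * μ + 1) ∈ Sp fun j => j ≠ μ := by
        have := Submodule.sub_mem _ hW hf2
        rwa [m4, add_sub_cancel_right] at this
      exact notMem_Sp (fun j hj => hj) this
    · -- use `T_5`
      obtain ⟨f, hf, -, hf1⟩ := dom_five m
      obtain ⟨μ, m1, m2, m3, m4⟩ := hf1 (by omega)
      have hW : TT 5 (DD ^ (2 * m + 1)) ∈ Sp fun j => j ≠ μ := by
        have e1 : TT 5 (∑ j ∈ s, c j • DD ^ (2 * j + 1)) =
            c m • TT 5 (DD ^ (2 * m + 1)) + ∑ j ∈ s.erase m, c j • TT 5 (DD ^ (2 * j + 1)) := by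
          rw [map_sum, ← Finset.add_sum_erase s _ hm]
          simp only [map_smul]
        have e2 : ∑ j ∈ s.erase m, c j • TT 5 (DD ^ (2 * j + 1)) ∈ Sp fun j => j ≠ μ := by
          refine Submodule.sum_mem _ fun j hj => Submodule.smul_mem _ _ ?_
          rw [mem_erase] at hj
          refine Lo_le_Sp (fun i _ h2 h3 he => ?_) (dom_five j).weak
          subst he
          rcases hmax' j hj.2 with h | h
          · unfold dg at *
            omega
          · have hne : od j ≠ od m := by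
              intro he2
              refine hj.1 (ev_od_inj _ _ ?_ he2)
              unfold dg at h; omega
            have := h3 (by unfold dg at *; omega)
            omega
        have e3 : TT 5 (∑ j ∈ s, c j • DD ^ (2 * j + 1)) ∈ Sp fun j => j ≠ μ := by
          refine Sp_mono (fun i hi he => ?_) h5
          subst he
          unfold dg at *
          omega
        have e4 : c m • TT 5 (DD ^ (2 * m + 1)) ∈ Sp fun j => j ≠ μ := by
          have := Submodule.sub_mem _ e3 e2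
          rwa [e1, add_sub_cancel_right] at this
        have e5 := Submodule.smul_mem _ (c m)⁻¹ e4
        rwa [smul_smul, inv_mul_cancel₀ (hc m hm), one_smul] at e5
      have hf2 : f ∈ Sp fun j => j ≠ μ := by
        refine Lo_le_Sp (fun i _ h2 h3 he => ?_) hf
        subst he
        have := h3 (by unfold dg; omega)
        omega
      have : DD ^ (2 * μ + 1) ∈ Sp fun j => j ≠ μ := by
        have := Submodule.sub_mem _ hW hf2
        rwa [m4, add_sub_cancel_right] at this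
      exact notMem_Sp (fun j hj => hj) this

lemma drop_three (n : ℕ) {g : (ZMod 2)⟦X⟧} (hg : g ∈ Sp fun j => dg j < n + 1) :
    TT 3 g ∈ Sp fun j => dg j < n := by
  refine Sp_map _ _ (fun j hj => ?_) hg
  obtain ⟨f, hf, g0, g1⟩ := dom_three' j
  have hf2 : f ∈ Sp fun j => dg j < n := Lo_le_Sp (fun i _ h2 _ => by omega) hf
  by_cases hevj : ev j = 0
  · rw [g0 hevj]; exact hf2
  · obtain ⟨ν, n1, n2, n3, n4⟩ := g1 (by omega)
    rw [n4]
    refine Submodule.add_mem _ (Sp_mem ?_) hf2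
    unfold dg at *
    omega

lemma drop_five (n : ℕ) {g : (ZMod 2)⟦X⟧} (hg : g ∈ Sp fun j => dg j < n + 1) :
    TT 5 g ∈ Sp fun j => dg j < n := by
  refine Sp_map _ _ (fun j hj => ?_) hg
  exact Lo_le_Sp (fun i _ h2 _ => by omega) (dom_five j).weak

lemma TT_odd (ℓ : ℕ) (hℓ : ℓ.Prime) (h2 : ℓ ≠ 2) {g : (ZMod 2)⟦X⟧} (hg : g ∈ Sp fun _ => True) :
    TT ℓ g ∈ Sp fun _ => True := by
  refine Sp_map _ _ (fun j _ => ?_) hg
  have hodd : ℓ % 2 = 1 := Nat.odd_iff.mp (hℓ.odd_of_ne_two h2)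
  refine Submodule.span_mono ?_ (TT_mem ℓ (2 * j + 1) hℓ h2)
  rintro f ⟨i, hi, hi2, rfl⟩
  have hprod : ℓ * (2 * j + 1) % 2 = 1 := by
    rw [Nat.mul_mod, hodd]; omega
  exact ⟨i / 2, trivial, by congr 1; omega⟩

lemma Sp_true {Q : ℕ → Prop} {g : (ZMod 2)⟦X⟧} (hg : g ∈ Sp Q) : g ∈ Sp fun _ => True :=
  Sp_mono (fun _ _ => trivial) hg

lemma dg_eq_zero {j : ℕ} (h : dg j = 0) : j = 0 :=
  ev_od_inj _ _ (by rw [ev_zero]; unfold dg at h; omega) (by rw [od_zero]; unfold dg at h; omega)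

/-- Every Hecke operator lowers the height. -/
theorem drop (ℓ : ℕ) (hℓ : ℓ.Prime) (h2 : ℓ ≠ 2) (n : ℕ) : ∀ {g : (ZMod 2)⟦X⟧},
    (g ∈ Sp fun j => dg j < n + 1) → TT ℓ g ∈ Sp fun j => dg j < n := by
  induction n with
  | zero =>
    intro g hg
    refine Sp_map _ _ (fun j hj => ?_) hg
    have h0 : j = 0 := dg_eq_zero (by omega)
    subst h0
    rw [show 2 * 0 + 1 = 1 by norm_num, TT_one ℓ hℓ h2]
    exact Submodule.zero_mem _
  | succ n ih =>
    intro g hg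
    refine lift_height n (TT_odd ℓ hℓ h2 (Sp_true hg)) ?_ ?_
    · rw [TT_comm 3 ℓ (by norm_num) hℓ]
      exact ih (drop_three _ hg)
    · rw [TT_comm 5 ℓ (by norm_num) hℓ]
      exact ih (drop_five _ hg)

/-- `T_ℓ + T_5` lowers the height by two for `ℓ ≡ 5 mod 8`. -/
theorem drop_two (ℓ : ℕ) (hℓ : ℓ.Prime) (h5 : ℓ % 8 = 5) (n : ℕ) : ∀ {g : (ZMod 2)⟦X⟧},
    (g ∈ Sp fun j => dg j < n + 2) → TT ℓ g + TT 5 g ∈ Sp fun j => dg j < n := by
  have h2 : ℓ ≠ 2 := by rintro rfl; omega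
  induction n with
  | zero =>
    intro g hg
    refine Sp_map _ (TT ℓ + TT 5) (fun j hj => ?_) hg
    rw [LinearMap.add_apply]
    have hj3 : j = 0 ∨ j = 1 ∨ j = 2 := by
      unfold dg at hj
      have : (ev j = 0 ∧ od j = 0) ∨ (ev j = 1 ∧ od j = 0) ∨ (ev j = 0 ∧ od j = 1) := by omega
      rcases this with h | h | h
      · exact Or.inl (ev_od_inj _ _ (by rw [ev_zero]; exact h.1) (by rw [od_zero]; exact h.2))
      · exact Or.inr (Or.inl (ev_od_inj _ _ (by rw [ev_one]; exact h.1) (by rw [od_one]; exact h.2)))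
      · exact Or.inr (Or.inr (ev_od_inj _ _ (by rw [ev_two]; exact h.1) (by rw [od_two]; exact h.2)))
    rcases hj3 with rfl | rfl | rfl
    · rw [show 2 * 0 + 1 = 1 by norm_num, TT_one ℓ hℓ h2, TT_one 5 (by norm_num) (by norm_num),
        add_zero]
      exact Submodule.zero_mem _
    · rw [show 2 * 1 + 1 = 3 by norm_num, TT_three_of_five ℓ hℓ h5,
        TT_three_of_five 5 (by norm_num) (by norm_num), add_zero]
      exact Submodule.zero_mem _
    · rw [show 2 * 2 + 1 = 5 by norm_num, TT_five_of_five ℓ hℓ h5,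
        TT_five_of_five 5 (by norm_num) (by norm_num)]
      have : DD ^ 1 + DD ^ 1 = (0 : (ZMod 2)⟦X⟧) := by
        linear_combination DD * two_eq_zero'
      rw [this]
      exact Submodule.zero_mem _
  | succ n ih =>
    intro g hg
    have hT : TT ℓ g + TT 5 g ∈ Sp fun _ => True :=
      Submodule.add_mem _ (TT_odd ℓ hℓ h2 (Sp_true hg))
        (TT_odd 5 (by norm_num) (by norm_num) (Sp_true hg))
    refine lift_height n hT ?_ ?_
    · rw [map_add, TT_comm 3 ℓ (by norm_num) hℓ, TT_comm 3 5 (by norm_num) (by norm_num)]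
      exact ih (drop_three _ hg)
    · rw [map_add, TT_comm 5 ℓ (by norm_num) hℓ]
      exact ih (drop_five _ hg)

/-- One step down for `ℓ ≡ 5 mod 8`. -/
lemma step_five (ℓ : ℕ) (hℓ : ℓ.Prime) (h5 : ℓ % 8 = 5) (n κ : ℕ) (he : ev κ = 0)
    (ho : od κ = n + 1) {g : (ZMod 2)⟦X⟧}
    (hg : g ∈ Sp fun j => dg j < n + 2 ∧ (dg j = n + 1 → od j < n + 1)) :
    ∃ μ, ev μ = 0 ∧ od μ = n ∧ ∃ g' ∈ Sp fun j => dg j < n + 1 ∧ (dg j = n → od j < n),
      TT ℓ (DD ^ (2 * κ + 1) + g) = DD ^ (2 * μ + 1) + g' := by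
  have hdg : dg κ = n + 1 := by unfold dg; omega
  obtain ⟨f, hf, -, hf1⟩ := dom_five κ
  obtain ⟨μ, m1, m2, m3, m4⟩ := hf1 (by omega)
  set G := DD ^ (2 * κ + 1) + g with hG
  have hGm : G ∈ Sp fun j => dg j < n + 2 :=
    Submodule.add_mem _ (Sp_mem (by omega)) (Sp_mono (fun j hj => hj.1) hg)
  have h1 := drop_two ℓ hℓ h5 n hGm
  have h1' : TT ℓ G + TT 5 G ∈ Sp fun j => dg j < n + 1 ∧ (dg j = n → od j < n) :=
    Sp_mono (fun j hj => ⟨by omega, fun h => by omega⟩) h1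
  have h2 : f ∈ Sp fun j => dg j < n + 1 ∧ (dg j = n → od j < n) := by
    refine Lo_le_Sp (fun i _ a2 a3 => ⟨by omega, fun h => ?_⟩) hf
    have := a3 (by omega)
    omega
  have h3 : TT 5 g ∈ Sp fun j => dg j < n + 1 ∧ (dg j = n → od j < n) := by
    refine Sp_map _ _ (fun j hj => ?_) hg
    refine Lo_le_Sp (fun i _ a2 a3 => ⟨by omega, fun h => ?_⟩) (dom_five j).weak
    have := hj.2 (by omega)
    have := a3 (by omega)
    omega
  refine ⟨μ, by omega, by omega, (TT ℓ G + TT 5 G) + (f + TT 5 g),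
    Submodule.add_mem _ h1' (Submodule.add_mem _ h2 h3), ?_⟩
  have h4 : TT 5 G = DD ^ (2 * μ + 1) + f + TT 5 g := by
    rw [hG, map_add, m4]
  rw [h4]
  linear_combination (-(DD ^ (2 * μ + 1)) - f - TT 5 g) * two_eq_zero'

lemma coeff_step (ℓ n : ℕ) (h : ¬ ℓ ∣ n) (g : (ZMod 2)⟦X⟧) :
    coeff (ℓ * n) g = coeff n (TT ℓ g) := by
  rw [coeff_TT, if_neg h, add_zero]

lemma not_dvd_prod (ℓ : ℕ) (hℓ : ℓ.Prime) (S : Finset ℕ) (hS : ∀ p ∈ S, p.Prime) (h : ℓ ∉ S) :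
    ¬ ℓ ∣ ∏ p ∈ S, p := by
  intro hd
  rw [(Nat.prime_iff.mp hℓ).dvd_finsetProd_iff] at hd
  obtain ⟨p, hp, hd⟩ := hd
  rw [(Nat.prime_dvd_prime_iff_eq hℓ (hS p hp))] at hd
  exact h (hd ▸ hp)

lemma coeff_prod_aux (n : ℕ) : ∀ (S : Finset ℕ), (∀ ℓ ∈ S, ℓ.Prime ∧ ℓ % 8 = 5) → S.card = n →
    ∀ (κ : ℕ) (g : (ZMod 2)⟦X⟧), ev κ = 0 → od κ = n →
      (g ∈ Sp fun j => dg j < n + 1 ∧ (dg j = n → od j < n)) →
      coeff (∏ ℓ ∈ S, ℓ) (DD ^ (2 * κ + 1) + g) = 1 := by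
  induction n with
  | zero =>
    intro S _ hc κ g he ho hg
    rw [card_eq_zero] at hc
    subst hc
    have hκ : κ = 0 := dg_eq_zero (by unfold dg; omega)
    subst hκ
    have hg0 : g = 0 := Sp_empty (fun j hj => by have := hj.2 (by omega); omega) hg
    rw [hg0, prod_empty, add_zero, show 2 * 0 + 1 = 1 by norm_num]
    exact coeff_DD_pow_self 1
  | succ n ih =>
    intro S hS hc κ g he ho hg
    obtain ⟨ℓ, hℓ⟩ : S.Nonempty := by
      rw [← card_pos]; omega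
    have h1 : ℓ * ∏ p ∈ S.erase ℓ, p = ∏ p ∈ S, p := Finset.mul_prod_erase S (fun p => p) hℓ
    rw [← h1, coeff_step _ _ (not_dvd_prod ℓ (hS ℓ hℓ).1 _
      (fun p hp => (hS p (mem_of_mem_erase hp)).1) (notMem_erase ℓ S))]
    obtain ⟨μ, hμ1, hμ2, g', hg', heq⟩ := step_five ℓ (hS ℓ hℓ).1 (hS ℓ hℓ).2 n κ he ho hg
    rw [heq]
    exact ih (S.erase ℓ) (fun p hp => hS p (mem_of_mem_erase hp))
      (by rw [card_erase_of_mem hℓ]; omega) μ g' hμ1 hμ2 hg'

lemma coeff_zero_aux (n : ℕ) : ∀ (S : Finset ℕ), (∀ ℓ ∈ S, ℓ.Prime ∧ ℓ ≠ 2) → n ≤ S.card →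
    ∀ (q : ℕ) (g : (ZMod 2)⟦X⟧), (∀ ℓ ∈ S, ¬ ℓ ∣ q) → (g ∈ Sp fun j => dg j < n) →
      coeff (q * ∏ ℓ ∈ S, ℓ) g = 0 := by
  induction n with
  | zero =>
    intro S _ _ q g _ hg
    have hg0 : g = 0 := Sp_empty (fun j hj => by omega) hg
    rw [hg0, map_zero]
  | succ n ih =>
    intro S hS hc q g hq hg
    obtain ⟨ℓ, hℓ⟩ : S.Nonempty := by
      rw [← card_pos]; omega
    have h1 : ℓ * ∏ p ∈ S.erase ℓ, p = ∏ p ∈ S, p := Finset.mul_prod_erase S (fun p => p) hℓ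
    have h2 : q * ∏ p ∈ S, p = ℓ * (q * ∏ p ∈ S.erase ℓ, p) := by rw [← h1]; ring
    have h3 : ¬ ℓ ∣ q * ∏ p ∈ S.erase ℓ, p := by
      rw [(hS ℓ hℓ).1.dvd_mul]
      rintro (h | h)
      · exact hq ℓ hℓ h
      · exact not_dvd_prod ℓ (hS ℓ hℓ).1 _ (fun p hp => (hS p (mem_of_mem_erase hp)).1)
          (notMem_erase ℓ S) h
    rw [h2, coeff_step _ _ h3]
    exact ih (S.erase ℓ) (fun p hp => hS p (mem_of_mem_erase hp))
      (by rw [card_erase_of_mem hℓ]; omega) q _ (fun p hp => hq p (mem_of_mem_erase hp))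
      (drop ℓ (hS ℓ hℓ).1 (hS ℓ hℓ).2 n hg)

/-- The exponent `(4 ^ μ - 1) / 3`. -/
lemma exists_index (μ : ℕ) (hμ : 1 ≤ μ) : ∃ κ, (4 ^ μ - 1) / 3 = 2 * κ + 1 ∧ ev κ = 0 ∧
    od κ + 1 = 2 ^ (μ - 1) := by
  obtain ⟨m, rfl⟩ : ∃ m, μ = m + 1 := ⟨μ - 1, by omega⟩
  rw [Nat.add_sub_cancel]
  have key : ∀ m : ℕ, ∃ κ, 4 ^ (m + 1) = 3 * (2 * κ + 1) + 1 ∧ ev κ = 0 ∧ od κ + 1 = 2 ^ m := by
    intro m
    induction m with
    | zero => exact ⟨0, by norm_num, ev_zero, by rw [od_zero]; norm_num⟩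
    | succ m ih =>
      obtain ⟨κ, h1, h2, h3⟩ := ih
      refine ⟨4 * κ + 2, ?_, ?_, ?_⟩
      · rw [pow_succ, h1]; ring
      · rw [ev_eq, show (4 * κ + 2) / 4 = κ by omega, h2]; omega
      · rw [od_eq, show (4 * κ + 2) / 4 = κ by omega, pow_succ, ← h3]; omega
  obtain ⟨κ, h1, h2, h3⟩ := key m
  exact ⟨κ, by omega, h2, h3⟩

/-- `Δ ^ ((4 ^ μ - 1) / 3)` has an odd coefficient at every product of exactly `2 ^ (μ - 1) - 1`
primes `≡ 5 mod 8`. -/
theorem coeff_prod (μ : ℕ) (hμ : 1 ≤ μ) (S : Finset ℕ) (hS : ∀ ℓ ∈ S, ℓ.Prime ∧ ℓ % 8 = 5)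
    (hc : S.card + 1 = 2 ^ (μ - 1)) : coeff (∏ ℓ ∈ S, ℓ) (DD ^ ((4 ^ μ - 1) / 3)) = 1 := by
  obtain ⟨κ, h1, h2, h3⟩ := exists_index μ hμ
  rw [h1]
  have := coeff_prod_aux S.card S hS rfl κ 0 h2 (by omega) (Submodule.zero_mem _)
  rwa [add_zero] at this

/-- `Δ ^ ((4 ^ μ - 1) / 3)` has an even coefficient at the exact multiples of any `2 ^ (μ - 1)`
odd primes. -/
theorem coeff_zero (μ : ℕ) (hμ : 1 ≤ μ) (S : Finset ℕ) (hS : ∀ ℓ ∈ S, ℓ.Prime ∧ ℓ ≠ 2)
    (hc : 2 ^ (μ - 1) ≤ S.card) (q : ℕ) (hq : ∀ ℓ ∈ S, ¬ ℓ ∣ q) :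
    coeff (q * ∏ ℓ ∈ S, ℓ) (DD ^ ((4 ^ μ - 1) / 3)) = 0 := by
  obtain ⟨κ, h1, h2, h3⟩ := exists_index μ hμ
  rw [h1]
  refine coeff_zero_aux (2 ^ (μ - 1)) S hS hc q _ hq (Sp_mem ?_)
  unfold dg; omega

end Pool.Agent.helper7.OC
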