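import Mathlib
import Pool.Agent.helper38.PO.AA5
import Pool.Agent.helper79.OC.AA4

/-!
Project OC, module AA5: the incidence relation.
-/

set_option autoImplicit false
open PowerSeries Finset

namespace Pool.Agent.helper7.OC

theorem incidence (μ : ℕ) (hμ : 1 ≤ μ) (S : Finset ℕ) (hS : ∀ ℓ ∈ S, ℓ.Prime ∧ ℓ % 8 = 5)
    (hc : S.card + 1 = 2 ^ (μ - 1)) : ∃ n y : ℕ, 1 ≤ y ∧ Odd (Fintype.card (Nat.Partition n)) ∧
      3 * (∏ ℓ ∈ S, ℓ) + 1 = 24 * n + (2 ^ μ * y) ^ 2 :=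
  incidence_of μ _ (coeff_prod μ hμ S hS hc)

end Pool.Agent.helper7.OC
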